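import Mathlib
import Pool.Agent.H985.Par.StmPar
import Pool.Agent.H985.Chow.Asm

/-!
# Products of exactly two primes and the parity problem over `F_q[X]`, `q` even (helper560, after an
idea of helper524 and the theorems of helper985, helper604, helper524): statements of the parts
-/

set_option autoImplicit false

namespace Pool.Agent.H560.E2

open Polynomial
open scoped Classical
open Pool.Agent.H985.Chow (mob)
open Pool.Agent.H985.Par (GoodV Sft)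
open Pool.Agent.H694.Typ (Mn Irn PU)

/-- The number of nonzero residue classes modulo `P` among the `α i`. -/
noncomputable def om {K : Type} [Field K] {k : ℕ} (α : Fin k → K[X]) (P : K[X]) : ℕ :=
  ((Finset.univ.image (fun i => α i % P)).erase 0).card

/-- The proportion of the reduced residue classes modulo `P` removed by the sieve. -/
noncomputable def wd {K : Type} [Field K] [Fintype K] {k : ℕ} (α : Fin k → K[X]) (P : K[X]) : ℝ :=
  (om α P : ℝ) / ((Fintype.card K : ℝ) ^ P.natDegree - 1)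

/-- The singular product. -/
noncomputable def V1 {K : Type} [Field K] [Fintype K] {k : ℕ} (α : Fin k → K[X]) (m : ℕ) : ℝ :=
  ∏ P ∈ PU K m, (1 - wd α P)

/-- The set `0, α 1, …, α k` does not cover all classes modulo a prime of degree at most `m`. -/
def Adm {K : Type} [Field K] [Fintype K] {k : ℕ} (α : Fin k → K[X]) (m : ℕ) : Prop :=
  ∀ P ∈ PU K m, om α P + 1 < Fintype.card K ^ P.natDegree

/-- The function of `f` with the sieve weights `U`. -/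
noncomputable def th {K : Type} [Field K] [Fintype K] {k : ℕ} (m : ℕ) (U : Finset K[X] → ℝ)
    (α : Fin k → K[X]) (f : K[X]) : ℝ :=
  ∑ T ∈ (PU K m).powerset, if ∀ P ∈ T, ∃ i, P ∣ f + α i then U T else 0

/-- The second coordinate `b` of `f = a² + X b²` is good. -/
def GdF {K : Type} [Field K] (y : ℕ) (δ κ : ℝ) (d : ℕ) (f : K[X]) : Prop :=
  ∃ a b : K[X], f = a ^ 2 + X * b ^ 2 ∧ GoodV {P : K[X] | P.natDegree ≤ y} δ κ d b

/-- The pairs of primes `p`, `g` of degrees `j` and `2 d + 1`, with `p g + α i` sifted. -/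
noncomputable def Zs (K : Type) [Field K] [Fintype K] {k : ℕ} (α : Fin k → K[X]) (d j m : ℕ) :
    Finset (K[X] × K[X]) :=
  (((Irn K j).filter (fun p => ∀ i, ¬ p ∣ α i)) ×ˢ Irn K (2 * d + 1)).filter
    (fun x => ∀ i, Sft m (x.1 * x.2 + α i))

/-- **Task TYP.**  Typical polynomials in a residue class modulo a prime of rather large degree. -/
def S_typP : Prop :=
  ∀ (K : Type) [Field K] [Fintype K] (ε : ℝ), 0 < ε → ∃ δ : ℝ, 0 < δ ∧ δ ≤ 1 / 8 ∧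
    ∀ κ : ℝ, 0 < κ → ∃ θ : ℝ, 0 < θ ∧ ∃ y₀ d₀ : ℕ, ∀ d y : ℕ, d₀ ≤ d → y₀ ≤ y → (y : ℝ) ≤ θ * d →
      ∀ p c : K[X], p.Monic → Irreducible p → (p.natDegree : ℝ) ≤ δ * d → ¬ p ∣ c →
        (((Mn K d).filter (fun b => p ∣ b - c ∧
          ¬ GoodV {P : K[X] | P.natDegree ≤ y} δ κ d b)).card : ℝ) ≤
            ε * (Fintype.card K : ℝ) ^ (d - p.natDegree)

/-- **Task WIN.**  The fibre bound for two primes `p`, `p'`. -/
def S_winP : Prop :=
  ∀ (K : Type) [Field K] [Fintype K] [CharP K 2] (k : ℕ) (δ : ℝ), 1 ≤ k → 0 < δ →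
    ∃ κ c : ℝ, 0 < κ ∧ κ ≤ 1 / 8 ∧ 0 < c ∧ ∃ C n₀ : ℕ, ∀ d j y : ℕ, n₀ ≤ d → 1 ≤ j →
      (j : ℝ) ≤ κ * d → (y : ℝ) ≤ κ * d → ∀ (α s t s' t' : Fin k → K[X]) (p p' : K[X]),
        Function.Injective α → (∀ i, (α i).natDegree < 2 * d + 1 + j) →
        p ∈ Irn K j → p' ∈ Irn K j → p ≠ p' → (∀ i, ¬ p ∣ α i ∧ ¬ p' ∣ α i) →
        (∀ i, p * α i = s i ^ 2 + X * t i ^ 2) → (∀ i, p' * α i = s' i ^ 2 + X * t' i ^ 2) →
        ∃ F : K[X], F ≠ 0 ∧ F.natDegree ≤ C * d ∧ ∀ B : K[X], B.Monic → B.natDegree = d →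
          (∀ i, GoodV {P : K[X] | P.natDegree ≤ y} δ κ (d + j) (p * B + t i) ∧
            GoodV {P : K[X] | P.natDegree ≤ y} δ κ (d + j) (p' * B + t' i)) →
          (∀ P : K[X], P.Monic → Irreducible P → y < P.natDegree → P ∣ F →
            ∀ i, ¬ P ∣ p * B + t i ∧ ¬ P ∣ p' * B + t' i) →
          ∀ (D : K[X]) (w : K[X] → ℝ), D ≠ 0 → (D.natDegree : ℝ) ≤ κ * d →
            (∀ P : K[X], P.Monic → Irreducible P → P ∣ D → P.natDegree ≤ y) →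
            (∀ u, |w u| ≤ 1) → (∀ u v, w (u + D * v) = w u) →
            |∑ A : degreeLT K (d + 1), w (A : K[X]) *
              ∏ i, ((mob (p * ((A : K[X]) ^ 2 + X * B ^ 2) + α i) : ℝ) *
                (mob (p' * ((A : K[X]) ^ 2 + X * B ^ 2) + α i) : ℝ))| ≤
              (Fintype.card K : ℝ) ^ ((d : ℝ) - c * d)

/-- **Task BIL.**  The bilinear sum over the good pairs, with a power saving. -/
def S_bilP : Prop :=
  ∀ (K : Type) [Field K] [Fintype K] [CharP K 2] (k A : ℕ) (δ : ℝ), 0 < δ →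
    ∃ κ : ℝ, 0 < κ ∧ κ ≤ 1 / 8 ∧ ∀ η : ℝ, 0 < η → ∃ κ' c : ℝ, 0 < κ' ∧ 0 < c ∧ ∃ n₀ : ℕ,
      ∀ d j y m : ℕ, n₀ ≤ d → η * d ≤ (j : ℝ) → (j : ℝ) ≤ κ * d → η * d ≤ (y : ℝ) →
        (y : ℝ) ≤ κ * d → (m : ℝ) ≤ κ' * d →
        ∀ (α : Fin k → K[X]) (S : Finset (Fin k)) (U : Finset K[X] → ℝ) (Gs : Finset K[X]),
          Function.Injective α → (∀ i, (α i).natDegree < 2 * d + 1 + j) → S.Nonempty →
          (∀ T, |U T| ≤ 1) → (∀ T, U T ≠ 0 → T ⊆ PU K m ∧ ∑ P ∈ T, P.natDegree ≤ A * m) →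
          Gs ⊆ Mn K (2 * d + 1) →
          |∑ p ∈ (Irn K j).filter (fun p => ∀ i, ¬ p ∣ α i), ∑ g ∈ Gs,
            (if ∀ i ∈ S, GdF y δ κ (d + j) (p * (p * g + α i)) then
              th m U α (p * g) * ∏ i ∈ S, (mob (p * g + α i) : ℝ) else 0)| ≤
            (Fintype.card K : ℝ) ^ (2 * (d : ℝ) + 1 + j - c * d)

/-- **Task UPB.**  The upper bound for the sifted prime values in any fibre. -/
def S_upP : Prop :=
  ∀ (K : Type) [Field K] [Fintype K] [CharP K 2] (k : ℕ), ∃ a : ℝ, 0 < a ∧ ∃ n₀ : ℕ,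
    ∀ d j m : ℕ, n₀ ≤ d → 1 ≤ m → m < j → (m : ℝ) ≤ a * d →
      ∀ (α : Fin k → K[X]) (p B : K[X]), p ∈ Irn K j → B.Monic → B.natDegree = d → Adm α m →
        (((Finset.univ : Finset (degreeLT K (d + 1))).filter (fun A : degreeLT K (d + 1) =>
          Irreducible ((A : K[X]) ^ 2 + X * B ^ 2) ∧
          ∀ i, Sft m (p * ((A : K[X]) ^ 2 + X * B ^ 2) + α i))).card : ℝ) ≤
            V1 α m * (Fintype.card K : ℝ) ^ (d + 1) / (a * d)

/-- **Task MAIN.**  The sieve weights along the primes of degree `N`. -/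
def S_mainP : Prop :=
  ∀ (K : Type) [Field K] [Fintype K] (k A : ℕ), ∃ κ : ℝ, 0 < κ ∧ ∃ n₀ : ℕ, ∀ N j m : ℕ, n₀ ≤ N →
    (m : ℝ) ≤ κ * N → m < j →
    ∀ (α : Fin k → K[X]) (p : K[X]) (U : Finset K[X] → ℝ), p ∈ Irn K j →
      (∀ T, |U T| ≤ 1) → (∀ T, U T ≠ 0 → T ⊆ PU K m ∧ ∑ P ∈ T, P.natDegree ≤ A * m) →
      |∑ g ∈ Irn K N, th m U α (p * g) - (Fintype.card K : ℝ) ^ N / N *
        ∑ T ∈ (PU K m).powerset, U T * ∏ P ∈ T, wd α P| ≤
          (Fintype.card K : ℝ) ^ (3 / 4 * (N : ℝ))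

/-- **Task SV.**  The sieve weights. -/
def S_svP : Prop :=
  ∀ (K : Type) [Field K] [Fintype K] (k : ℕ) (ε : ℝ), 0 < ε → ∃ A : ℕ,
    ∀ (m : ℕ) (α : Fin k → K[X]), Adm α m →
      ∃ U V : Finset K[X] → ℝ, (∀ T, |U T| ≤ 1 ∧ |V T| ≤ 1) ∧
        (∀ T, (U T ≠ 0 ∨ V T ≠ 0) → T ⊆ PU K m ∧ ∑ P ∈ T, P.natDegree ≤ A * m) ∧
        (∀ f, (if ∀ i, Sft m (f + α i) then (1 : ℝ) else 0) ≤ th m U α f) ∧
        (∀ f, th m V α f ≤ if ∀ i, Sft m (f + α i) then (1 : ℝ) else 0) ∧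
        ∑ T ∈ (PU K m).powerset, U T * ∏ P ∈ T, wd α P ≤ (1 + ε) * V1 α m ∧
        (1 - ε) * V1 α m ≤ ∑ T ∈ (PU K m).powerset, V T * ∏ P ∈ T, wd α P

/-- **Task VLOW.**  The lower bound for the singular product. -/
def S_v1P : Prop :=
  ∀ (K : Type) [Field K] [Fintype K] (k : ℕ), ∃ c : ℝ, 0 < c ∧
    ∀ (m : ℕ) (α : Fin k → K[X]), 1 ≤ m → Adm α m → c / (m : ℝ) ^ k ≤ V1 α m

/-- **Task NSQ.**  Sifted values which are not squarefree are rare. -/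
def S_nsqP : Prop :=
  ∀ (K : Type) [Field K] [Fintype K] (k N j m : ℕ) (α : Fin k → K[X]) (p : K[X]),
    (∀ i, (α i).natDegree < N + j) → 2 * m + j ≤ N → p ∈ Irn K j → (∀ i, ¬ p ∣ α i) →
      (((Mn K N).filter (fun g => ∃ i, Sft m (p * g + α i) ∧
        ¬ Squarefree (p * g + α i))).card : ℝ) ≤
          4 * k * (Fintype.card K : ℝ) ^ N / (Fintype.card K : ℝ) ^ m

/-- **Task FIN.**  The core theorem: the number of the pairs, and the parity of the number of prime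
factors of the `p g + α i`. -/
def S_core : Prop :=
  ∀ (K : Type) [Field K] [Fintype K] [CharP K 2] (k : ℕ) (ε : ℝ), 1 ≤ k → 0 < ε →
    ∃ η κ c : ℝ, 0 < η ∧ η ≤ 1 / 16 ∧ 0 < κ ∧ κ ≤ 1 / 16 ∧ 0 < c ∧ ∃ m₀ n₀ : ℕ,
    ∀ d j m : ℕ, n₀ ≤ d → η * d ≤ (j : ℝ) → (j : ℝ) ≤ 2 * η * d → m₀ ≤ m → (m : ℝ) ≤ κ * d →
      m < j ∧ ∀ α : Fin k → K[X], Function.Injective α → (∀ i, α i ≠ 0) →
        (∀ i, (α i).natDegree < 2 * d + 1 + j) → Adm α m →
        c * (Fintype.card K : ℝ) ^ (2 * d + 1 + j) / ((d : ℝ) ^ 2 * (m : ℝ) ^ k) ≤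
          (Zs K α d j m).card ∧
        ∀ S : Finset (Fin k), S.Nonempty →
          |∑ x ∈ Zs K α d j m, ∏ i ∈ S, (mob (x.1 * x.2 + α i) : ℝ)| ≤
            ε * (Zs K α d j m).card

end Pool.Agent.H560.E2
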