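import Mathlib
import Pool.Agent.H560.E2.Stm
import Pool.Agent.H233.Par.Fib
import Pool.Agent.H985.Chow.Sgn

/-!
# E2, task WIN: algebraic preparations (helper560)
-/

set_option autoImplicit false

namespace Pool.Agent.H560.E2

open Polynomial
open scoped Classical
open Pool.Agent.H985.Chow (mob MD)
open Pool.Agent.H985.KP (PA mobg)
open Pool.Agent.H985.Par (GoodV Sft Fb)
open Pool.Agent.H985.Chow.Asm
open Pool.Agent.H604.FC.Asm4
open Pool.Agent.H233.Par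
open Pool.Agent.H694.Typ (Mn Irn PU mem_Irn mem_Mn)

section alg

variable {K : Type} [Field K]

lemma mob_prime_mul {p F : K[X]} (hp : Irreducible p) (hF : F ≠ 0) (h : ¬ p ∣ F) :
    mob (p * F) = - mob F := by
  by_cases hs : Squarefree F
  · refine Pool.Agent.H985.Chow.mob_irreducible_mul p F hp hF ?_
    rw [squarefree_mul_iff]
    exact ⟨(hp.coprime_iff_not_dvd.2 h).isRelPrime, hp.squarefree, hs⟩
  · have h2 : ¬ Squarefree (p * F) := fun h3 => hs (h3.squarefree_of_dvd (dvd_mul_left _ _))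
    unfold mob
    rw [if_neg hs, if_neg h2, neg_zero]

lemma mobg_sq_mul {g F : K[X]} (hg : g ≠ 0) : mobg g (g ^ 2 * F) = mob F := by
  unfold mobg
  rw [if_pos (dvd_mul_right _ _), mul_div_cancel_left₀ F (pow_ne_zero 2 hg)]

lemma not_dvd_snd {p α s t : K[X]} (hp : Irreducible p) (h : p * α = s ^ 2 + X * t ^ 2)
    (hα : ¬ p ∣ α) : ¬ p ∣ t := by
  intro ht
  have h1 : p ∣ s ^ 2 := by
    have h2 : s ^ 2 = p * α - X * t ^ 2 := by rw [h]; ring
    rw [h2]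
    exact dvd_sub (dvd_mul_right _ _) ((ht.pow two_ne_zero).mul_left _)
  have h2 : p ∣ s := hp.prime.dvd_of_dvd_pow h1
  obtain ⟨u, rfl⟩ := h2
  obtain ⟨v, rfl⟩ := ht
  apply hα
  refine ⟨u ^ 2 + X * v ^ 2, ?_⟩
  apply mul_left_cancel₀ hp.ne_zero
  rw [h]
  ring

lemma good_up {y j d : ℕ} {δ κ κ₁ : ℝ} {R₀ : Set K[X]} {p' β : K[X]} (hp : p'.Monic)
    (hpi : Irreducible p') (hpd : p'.natDegree = j) (hδ : 0 ≤ δ)
    (hκ₁ : j + κ * (d + j : ℕ) ≤ κ₁ * (d + 2 * j : ℕ))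
    (hR : ∀ P ∈ R₀, P.Monic → Irreducible P → P.natDegree ≤ y ∨ ¬ P ∣ β)
    (hpR : p' ∈ R₀) (h : GoodV {P : K[X] | P.natDegree ≤ y} δ κ (d + j) β) :
    GoodV R₀ (δ / 2) κ₁ (d + 2 * j) (p' * β) := by
  obtain ⟨e, h₁, h₂, hβ, he, hh₁, hh₂, hcop, hsq, hnd, hed, hlo, hhi⟩ := h
  have hnot : ∀ P ∈ R₀, P.Monic → Irreducible P → ¬ P ∣ h₁ * h₂ := by
    intro P hP hPm hPi hdv
    rcases hR P hP hPm hPi with h3 | h3
    · exact hnd P h3 hPm hPi hdv
    · apply h3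
      rw [hβ]
      exact hdv.mul_left e
  have hd0 : (0 : ℝ) ≤ d := Nat.cast_nonneg _
  have hj0 : (0 : ℝ) ≤ j := Nat.cast_nonneg _
  push_cast at hed hlo hhi hκ₁
  refine ⟨p' * e, h₁, h₂, by rw [hβ]; ring, hp.mul he, hh₁, hh₂, ?_, hsq, hnot, ?_, ?_, ?_⟩
  · exact (hpi.coprime_iff_not_dvd.2 (hnot p' hpR hp hpi)).mul_left hcop
  · rw [hp.natDegree_mul he, hpd]
    push_cast
    linarith
  · push_cast
    nlinarith
  · push_cast
    nlinarith

end alg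

end Pool.Agent.H560.E2
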