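import Mathlib
import Pool.Agent.H560.E2.Stm

/-!
# E2: from the sums of products of Möbius values to the patterns (helper560, after helper985)
-/

set_option autoImplicit false

namespace Pool.Agent.H560.E2

open Polynomial
open scoped Classical
open Pool.Agent.H985.Chow (mob)

variable {K : Type} [Field K]

lemma mob_sqf {F : K[X]} (h : Squarefree F) : mob F = 1 ∨ mob F = -1 := by
  rw [mob, if_pos h]
  exact neg_one_pow_eq_or ℤ _

lemma mob_cases (F : K[X]) : mob F = 0 ∨ mob F = 1 ∨ mob F = -1 := by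
  by_cases h : Squarefree F
  · exact Or.inr (mob_sqf h)
  · left
    rw [mob, if_neg h]

/-- the number of the members with a given pattern of signs -/
theorem patt {k : ℕ} {ι : Type} (Z : Finset ι) (F : ι → Fin k → K[X]) (σ : Fin k → ℤ)
    (hσ : ∀ i, σ i = 1 ∨ σ i = -1) (ε : ℝ) (hε : 0 ≤ ε)
    (h : ∀ S : Finset (Fin k), S.Nonempty →
      |∑ x ∈ Z, ∏ i ∈ S, (mob (F x i) : ℝ)| ≤ ε * Z.card) :
    |((Z.filter (fun x => ∀ i, mob (F x i) = σ i)).card : ℝ) - Z.card / 2 ^ k| ≤ ε * Z.card +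
        (Z.filter (fun x => ∃ i, ¬ Squarefree (F x i))).card := by
  have hN : ∀ x, (∏ i, (1 + (σ i : ℝ) * (mob (F x i) : ℝ))) / 2 ^ k =
      (∏ i, ((1 + (σ i : ℝ) * (mob (F x i) : ℝ)) / 2)) := by
    intro x
    rw [Finset.prod_div_distrib, Finset.prod_const, Finset.card_univ, Fintype.card_fin]
  have h1 : ∑ x ∈ Z, (∏ i, (1 + (σ i : ℝ) * (mob (F x i) : ℝ))) =
      Z.card + ∑ S ∈ (Finset.univ : Finset (Fin k)).powerset.erase ∅,
        (∏ i ∈ S, (σ i : ℝ)) * ∑ x ∈ Z, ∏ i ∈ S, (mob (F x i) : ℝ) := by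
    have e1 : ∀ x, (∏ i, (1 + (σ i : ℝ) * (mob (F x i) : ℝ))) =
        ∑ S ∈ (Finset.univ : Finset (Fin k)).powerset, ∏ i ∈ S, ((σ i : ℝ) * (mob (F x i) : ℝ)) :=
      fun x => Finset.prod_one_add _
    rw [Finset.sum_congr rfl fun x _ => e1 x, Finset.sum_comm,
      ← Finset.add_sum_erase _ _ (Finset.empty_mem_powerset _)]
    congr 1
    · simp
    · refine Finset.sum_congr rfl fun S _ => ?_
      rw [Finset.mul_sum]
      refine Finset.sum_congr rfl fun x _ => ?_
      rw [Finset.prod_mul_distrib]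
  have hσabs : ∀ S : Finset (Fin k), |∏ i ∈ S, (σ i : ℝ)| ≤ 1 := by
    intro S
    rw [Finset.abs_prod]
    refine Finset.prod_le_one (fun _ _ => abs_nonneg _) fun i _ => ?_
    rcases hσ i with h | h <;> rw [h] <;> simp
  have h2 : |(∑ x ∈ Z, (∏ i, (1 + (σ i : ℝ) * (mob (F x i) : ℝ)))) / 2 ^ k -
      Z.card / 2 ^ k| ≤ ε * Z.card := by
    rw [h1, ← sub_div, add_sub_cancel_left, abs_div, abs_of_pos (show (0 : ℝ) < 2 ^ k by positivity),
      div_le_iff₀ (by positivity)]
    refine (Finset.abs_sum_le_sum_abs _ _).trans ?_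
    have e2 : ∀ S ∈ (Finset.univ : Finset (Fin k)).powerset.erase ∅,
        |(∏ i ∈ S, (σ i : ℝ)) * ∑ x ∈ Z, ∏ i ∈ S, (mob (F x i) : ℝ)| ≤ ε * Z.card := by
      intro S hS
      rw [Finset.mem_erase] at hS
      rw [abs_mul]
      exact (mul_le_of_le_one_left (abs_nonneg _) (hσabs S)).trans
        (h S (Finset.nonempty_iff_ne_empty.2 hS.1))
    refine (Finset.sum_le_sum e2).trans ?_
    rw [Finset.sum_const, nsmul_eq_mul, mul_comm]
    refine mul_le_mul_of_nonneg_left ?_ (by positivity)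
    have e3 : ((Finset.univ : Finset (Fin k)).powerset.erase ∅).card ≤ 2 ^ k := by
      refine (Finset.card_erase_le).trans ?_
      rw [Finset.card_powerset, Finset.card_univ, Fintype.card_fin]
    exact_mod_cast e3
  have h3 : |((Z.filter (fun x => ∀ i, mob (F x i) = σ i)).card : ℝ) -
      (∑ x ∈ Z, (∏ i, (1 + (σ i : ℝ) * (mob (F x i) : ℝ)))) / 2 ^ k| ≤
      (Z.filter (fun x => ∃ i, ¬ Squarefree (F x i))).card := by
    rw [Finset.sum_div, Finset.card_filter, Finset.card_filter]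
    push_cast
    rw [← Finset.sum_sub_distrib]
    refine (Finset.abs_sum_le_sum_abs _ _).trans (Finset.sum_le_sum fun x _ => ?_)
    rw [hN x]
    by_cases hsq : ∃ i, ¬ Squarefree (F x i)
    · rw [if_pos hsq]
      have e4 : ∀ i, 0 ≤ (1 + (σ i : ℝ) * (mob (F x i) : ℝ)) / 2 ∧
          (1 + (σ i : ℝ) * (mob (F x i) : ℝ)) / 2 ≤ 1 := by
        intro i
        rcases hσ i with h | h <;> rcases mob_cases (F x i) with h' | h' | h' <;>
          rw [h, h'] <;> norm_num
      have e5 : 0 ≤ ∏ i, ((1 + (σ i : ℝ) * (mob (F x i) : ℝ)) / 2) :=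
        Finset.prod_nonneg fun i _ => (e4 i).1
      have e6 : ∏ i, ((1 + (σ i : ℝ) * (mob (F x i) : ℝ)) / 2) ≤ 1 :=
        Finset.prod_le_one (fun i _ => (e4 i).1) fun i _ => (e4 i).2
      rw [abs_le]
      split_ifs <;> constructor <;> linarith
    · rw [if_neg hsq]
      push Not at hsq
      have e7 : (if ∀ i, mob (F x i) = σ i then (1 : ℝ) else 0) =
          ∏ i, ((1 + (σ i : ℝ) * (mob (F x i) : ℝ)) / 2) := by
        have e8 : ∀ i, (1 + (σ i : ℝ) * (mob (F x i) : ℝ)) / 2 =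
            if mob (F x i) = σ i then 1 else 0 := by
          intro i
          rcases hσ i with h | h <;> rcases mob_sqf (hsq i) with h' | h' <;>
            rw [h, h'] <;> norm_num
        rw [Finset.prod_congr rfl fun i _ => e8 i, Finset.prod_ite_zero]
        simp
      rw [e7, sub_self, abs_zero]
  have h4 := abs_sub_le ((Z.filter (fun x => ∀ i, mob (F x i) = σ i)).card : ℝ)
    ((∑ x ∈ Z, (∏ i, (1 + (σ i : ℝ) * (mob (F x i) : ℝ)))) / 2 ^ k)
    (Z.card / 2 ^ k : ℝ)
  linarith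

end Pool.Agent.H560.E2
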