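import Mathlib
import Pool.Agent.H560.E2.Patt

/-!
# E2: squarefree values and patterns, one degree `j` (helper560)
-/

set_option autoImplicit false

namespace Pool.Agent.H560.E2

open Polynomial
open scoped Classical
open Pool.Agent.H985.Chow (mob)
open Pool.Agent.H985.Par (GoodV Sft)
open Pool.Agent.H694.Typ (Mn Irn PU mem_Irn mem_Mn card_Mn)

/-- polynomial against exponential growth -/
lemma poly_exp (q κ C : ℝ) (hq : 1 < q) (hκ : 0 < κ) (k : ℕ) :
    ∃ n₀ : ℕ, ∀ d : ℕ, n₀ ≤ d → C * (d : ℝ) ^ k ≤ q ^ ⌊κ * d⌋₊ := by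
  have hq0 : 0 < q := by linarith
  have hr0 : 0 ≤ q ^ (-κ) := Real.rpow_nonneg hq0.le _
  have hr1 : q ^ (-κ) < 1 := Real.rpow_lt_one_of_one_lt_of_neg hq (by linarith)
  have h1 := (tendsto_pow_const_mul_const_pow_of_lt_one k hr0 hr1).const_mul (C * q)
  rw [mul_zero] at h1
  have h2 := h1.eventually (gt_mem_nhds (show (0 : ℝ) < 1 by norm_num))
  rw [Filter.eventually_atTop] at h2
  obtain ⟨n₀, hn₀⟩ := h2
  refine ⟨n₀, fun d hd => ?_⟩
  have h3 := (hn₀ d hd).le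
  have h4 : (q ^ (-κ)) ^ d = q ^ (-(κ * d)) := by
    rw [← Real.rpow_natCast (q ^ (-κ)) d, ← Real.rpow_mul hq0.le]
    congr 1
    ring
  rw [h4] at h3
  have h5 : κ * d < (⌊κ * d⌋₊ : ℝ) + 1 := Nat.lt_floor_add_one _
  have h6 : q ^ (κ * d) ≤ q ^ (⌊κ * d⌋₊) * q := by
    rw [← pow_succ, ← Real.rpow_natCast]
    apply Real.rpow_le_rpow_of_exponent_le hq.le
    push_cast
    exact h5.le
  have h7 : q ^ (κ * d) * q ^ (-(κ * d)) = 1 := by
    rw [← Real.rpow_add hq0, add_neg_cancel, Real.rpow_zero]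
  have h8 : 0 < q ^ (κ * d) := Real.rpow_pos_of_pos hq0 _
  have h9 : 0 ≤ q ^ (-(κ * d)) := Real.rpow_nonneg hq0.le _
  have h10 : C * (d : ℝ) ^ k * q ≤ q ^ (κ * d) := by
    calc C * (d : ℝ) ^ k * q = (C * q * ((d : ℝ) ^ k * q ^ (-(κ * d)))) * q ^ (κ * d) := by
          have : C * q * ((d : ℝ) ^ k * q ^ (-(κ * d))) * q ^ (κ * d) =
            C * q * (d : ℝ) ^ k * (q ^ (κ * d) * q ^ (-(κ * d))) := by ring
          rw [this, h7]
          ring
      _ ≤ 1 * q ^ (κ * d) := mul_le_mul_of_nonneg_right h3 h8.le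
      _ = q ^ (κ * d) := one_mul _
  have h11 : C * (d : ℝ) ^ k * q ≤ q ^ (⌊κ * d⌋₊) * q := h10.trans h6
  exact le_of_mul_le_mul_right h11 hq0

/-- The squarefree part of `Zs`. -/
noncomputable def Zq (K : Type) [Field K] [Fintype K] {k : ℕ} (α : Fin k → K[X]) (d j m : ℕ) :
    Finset (K[X] × K[X]) := (Zs K α d j m).filter (fun x => ∀ i, Squarefree (x.1 * x.2 + α i))

/-- One degree `j`. -/
def S_lev : Prop :=
  ∀ (K : Type) [Field K] [Fintype K] [CharP K 2] (k : ℕ) (ε : ℝ), 1 ≤ k → 0 < ε →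
    ∃ η κ c : ℝ, 0 < η ∧ η ≤ 1 / 16 ∧ 0 < κ ∧ κ ≤ 1 / 16 ∧ 0 < c ∧ ∃ n₀ : ℕ,
    ∀ d j m : ℕ, n₀ ≤ d → η * d ≤ (j : ℝ) → (j : ℝ) ≤ 2 * η * d → κ / 2 * d ≤ (m : ℝ) →
      (m : ℝ) ≤ κ * d →
      ∀ α : Fin k → K[X], Function.Injective α → (∀ i, α i ≠ 0) →
        (∀ i, (α i).natDegree < 2 * d + 1 + j) → Adm α m →
        c * (Fintype.card K : ℝ) ^ (2 * d + 1 + j) / (d : ℝ) ^ (k + 2) ≤
          (Zq K α d j m).card ∧
        ∀ σ : Fin k → ℤ, (∀ i, σ i = 1 ∨ σ i = -1) →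
          |(((Zq K α d j m).filter (fun x => ∀ i, mob (x.1 * x.2 + α i) = σ i)).card : ℝ) -
            (Zq K α d j m).card / 2 ^ k| ≤ ε * (Zq K α d j m).card

theorem card_Irn_le (K : Type) [Field K] [Fintype K] (j : ℕ) :
    (Irn K j).card ≤ Fintype.card K ^ j := by
  rw [← card_Mn]
  unfold Irn
  exact Finset.card_filter_le _ _

theorem lev (hc : S_core) (hnsq : S_nsqP) : S_lev := by
  intro K _ _ _ k ε hk hε
  obtain ⟨q, hqdef⟩ : ∃ q : ℝ, q = Fintype.card K := ⟨_, rfl⟩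
  have hq1 : (1 : ℝ) < q := by rw [hqdef]; exact_mod_cast Fintype.one_lt_card
  have hq0 : (0 : ℝ) < q := by linarith
  obtain ⟨ε', hε'⟩ : ∃ ε' : ℝ, ε' = min ε 1 / 8 := ⟨_, rfl⟩
  have hε'0 : 0 < ε' := by
    rw [hε']
    have : 0 < min ε 1 := lt_min hε one_pos
    linarith
  have hε'ε : 8 * ε' ≤ ε := by
    rw [hε']
    have : min ε 1 ≤ ε := min_le_left _ _
    linarith
  have hε'1 : 8 * ε' ≤ 1 := by
    rw [hε']
    have : min ε 1 ≤ 1 := min_le_right _ _
    linarith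
  obtain ⟨η, κ, c, hη, hη16, hκ, hκ16, hc0, m₀, n₁, hcore⟩ := hc K k ε' hk hε'0
  obtain ⟨n₂, hn₂⟩ := poly_exp q (κ / 2) (4 * k / (ε' * c)) hq1 (by linarith) (k + 2)
  obtain ⟨n₃, hn₃⟩ := exists_nat_gt ((m₀ + 1 : ℝ) / (κ / 2))
  refine ⟨η, κ, c / 2, hη, hη16, hκ, hκ16, by linarith, n₁ + n₂ + n₃ + 1, ?_⟩
  intro d j m hd hj1 hj2 hm2 hmκ α hα hα0 hαd hadm
  have hd1 : (1 : ℝ) ≤ d := by exact_mod_cast (by omega : 1 ≤ d)
  have hd0 : (0 : ℝ) < d := by linarith
  have hm0 : m₀ + 1 ≤ m := by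
    have h1 : (n₃ : ℝ) ≤ d := by exact_mod_cast (by omega : n₃ ≤ d)
    have h2 : (m₀ + 1 : ℝ) / (κ / 2) ≤ d := hn₃.le.trans h1
    rw [div_le_iff₀ (by linarith)] at h2
    have h3 : ((m₀ + 1 : ℕ) : ℝ) ≤ m := by
      push_cast
      linarith
    exact_mod_cast h3
  obtain ⟨hmj, hco⟩ := hcore d j m (by omega) hj1 hj2 (by omega) hmκ
  obtain ⟨hlow, hpar⟩ := hco α hα hα0 hαd hadm
  rw [← hqdef] at hlow ⊢
  obtain ⟨n, hn⟩ : ∃ n, n = 2 * d + 1 + j := ⟨_, rfl⟩
  rw [← hn] at hlow ⊢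
  obtain ⟨N, hN⟩ : ∃ N : ℝ, N = (Zs K α d j m).card := ⟨_, rfl⟩
  have hqn : 0 < q ^ n := pow_pos hq0 _
  have hm1 : (1 : ℝ) ≤ m := by exact_mod_cast (by omega : 1 ≤ m)
  have hmd : (m : ℝ) ≤ d := by nlinarith
  have hlow' : c * q ^ n / (d : ℝ) ^ (k + 2) ≤ N := by
    rw [hN]
    refine le_trans ?_ hlow
    apply div_le_div_of_nonneg_left (by positivity) (by positivity)
    rw [add_comm k 2, pow_add]
    exact mul_le_mul_of_nonneg_left (pow_le_pow_left₀ (by linarith) hmd k) (by positivity)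
  -- the non squarefree values
  have hnum : 2 * m + j ≤ 2 * d + 1 := by
    have h1 : 2 * (m : ℝ) + j ≤ 2 * d + 1 := by nlinarith
    exact_mod_cast h1
  have hns : (((Zs K α d j m).filter (fun x => ∃ i, ¬ Squarefree (x.1 * x.2 + α i))).card : ℝ) ≤
      ε' * N := by
    have hsub : (Zs K α d j m).filter (fun x => ∃ i, ¬ Squarefree (x.1 * x.2 + α i)) ⊆
        ((Irn K j).filter (fun p => ∀ i, ¬ p ∣ α i)).biUnion (fun p =>
          ((Mn K (2 * d + 1)).filter (fun g => ∃ i, Sft m (p * g + α i) ∧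
            ¬ Squarefree (p * g + α i))).image (fun g => (p, g))) := by
      rintro ⟨p, g⟩ hx
      rw [Finset.mem_filter] at hx
      obtain ⟨hx1, i, hi⟩ := hx
      unfold Zs at hx1
      rw [Finset.mem_filter, Finset.mem_product] at hx1
      rw [Finset.mem_biUnion]
      refine ⟨p, hx1.1.1, ?_⟩
      rw [Finset.mem_image]
      refine ⟨g, ?_, rfl⟩
      rw [Finset.mem_filter, mem_Mn]
      have h2 := mem_Irn.1 hx1.1.2
      exact ⟨⟨h2.1, h2.2.1⟩, i, hx1.2 i, hi⟩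
    have h1 : (((Zs K α d j m).filter (fun x => ∃ i, ¬ Squarefree (x.1 * x.2 + α i))).card : ℝ) ≤
        ∑ p ∈ (Irn K j).filter (fun p => ∀ i, ¬ p ∣ α i),
          (((Mn K (2 * d + 1)).filter (fun g => ∃ i, Sft m (p * g + α i) ∧
            ¬ Squarefree (p * g + α i))).card : ℝ) := by
      have h2 := (Finset.card_le_card hsub).trans Finset.card_biUnion_le
      have h3 : ∑ p ∈ (Irn K j).filter (fun p => ∀ i, ¬ p ∣ α i),
          (((Mn K (2 * d + 1)).filter (fun g => ∃ i, Sft m (p * g + α i) ∧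
            ¬ Squarefree (p * g + α i))).image (fun g => (p, g))).card ≤
          ∑ p ∈ (Irn K j).filter (fun p => ∀ i, ¬ p ∣ α i),
          ((Mn K (2 * d + 1)).filter (fun g => ∃ i, Sft m (p * g + α i) ∧
            ¬ Squarefree (p * g + α i))).card := Finset.sum_le_sum fun p _ => Finset.card_image_le
      exact_mod_cast h2.trans h3
    have h2 : ∀ p ∈ (Irn K j).filter (fun p => ∀ i, ¬ p ∣ α i),
        (((Mn K (2 * d + 1)).filter (fun g => ∃ i, Sft m (p * g + α i) ∧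
            ¬ Squarefree (p * g + α i))).card : ℝ) ≤ 4 * k * q ^ (2 * d + 1) / q ^ m := by
      intro p hp
      rw [Finset.mem_filter] at hp
      have h3 := hnsq K k (2 * d + 1) j m α p hαd hnum hp.1 hp.2
      rw [← hqdef] at h3
      exact h3
    have h3 := h1.trans (Finset.sum_le_sum h2)
    rw [Finset.sum_const, nsmul_eq_mul] at h3
    have h4 : (((Irn K j).filter (fun p => ∀ i, ¬ p ∣ α i)).card : ℝ) ≤ q ^ j := by
      have h5 : ((Irn K j).filter (fun p => ∀ i, ¬ p ∣ α i)).card ≤ Fintype.card K ^ j :=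
        (Finset.card_filter_le _ _).trans (card_Irn_le K j)
      rw [hqdef]
      exact_mod_cast h5
    have h5 : 4 * (k : ℝ) / (ε' * c) * (d : ℝ) ^ (k + 2) ≤ q ^ m := by
      refine (hn₂ d (by omega)).trans (pow_le_pow_right₀ hq1.le ?_)
      have h6 : ((⌊κ / 2 * d⌋₊ : ℕ) : ℝ) ≤ m := (Nat.floor_le (by positivity)).trans hm2
      exact_mod_cast h6
    have hqm : 0 < q ^ m := pow_pos hq0 _
    calc _ ≤ q ^ j * (4 * k * q ^ (2 * d + 1) / q ^ m) :=
          h3.trans (mul_le_mul_of_nonneg_right h4 (by positivity))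
      _ = 4 * k * q ^ n / q ^ m := by
          rw [hn, pow_add q (2 * d + 1) j]
          ring
      _ ≤ ε' * (c * q ^ n / (d : ℝ) ^ (k + 2)) := by
          rw [div_le_iff₀ hqm]
          have h6 : ε' * (c * q ^ n / (d : ℝ) ^ (k + 2)) *
              (4 * (k : ℝ) / (ε' * c) * (d : ℝ) ^ (k + 2)) = 4 * k * q ^ n := by
            field_simp
          rw [← h6]
          exact mul_le_mul_of_nonneg_left h5 (by positivity)
      _ ≤ ε' * N := mul_le_mul_of_nonneg_left hlow' hε'0.le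
  -- the squarefree part
  have hsplit : ((Zq K α d j m).card : ℝ) +
      (((Zs K α d j m).filter (fun x => ∃ i, ¬ Squarefree (x.1 * x.2 + α i))).card : ℝ) = N := by
    rw [hN]
    have h1 := Finset.card_filter_add_card_filter_not (s := Zs K α d j m)
      (fun x => ∀ i, Squarefree (x.1 * x.2 + α i))
    have h2 : (Zs K α d j m).filter (fun x => ¬ ∀ i, Squarefree (x.1 * x.2 + α i)) =
        (Zs K α d j m).filter (fun x => ∃ i, ¬ Squarefree (x.1 * x.2 + α i)) :=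
      Finset.filter_congr fun x _ => by rw [not_forall]
    rw [h2] at h1
    unfold Zq
    exact_mod_cast h1
  have hN0 : 0 ≤ N := by rw [hN]; exact Nat.cast_nonneg _
  have hZq : N ≤ 2 * (Zq K α d j m).card := by nlinarith
  constructor
  · have h1 : c / 2 * q ^ n / (d : ℝ) ^ (k + 2) = (c * q ^ n / (d : ℝ) ^ (k + 2)) / 2 := by ring
    rw [h1]
    linarith
  · intro σ hσ
    have h1 := patt (Zs K α d j m) (fun x i => x.1 * x.2 + α i) σ hσ ε' hε'0.le (by
      intro S hS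
      exact hpar S hS)
    have h2 : (Zq K α d j m).filter (fun x => ∀ i, mob (x.1 * x.2 + α i) = σ i) =
        (Zs K α d j m).filter (fun x => ∀ i, mob (x.1 * x.2 + α i) = σ i) := by
      ext x
      unfold Zq
      rw [Finset.mem_filter, Finset.mem_filter, Finset.mem_filter]
      constructor
      · rintro ⟨⟨h3, -⟩, h4⟩
        exact ⟨h3, h4⟩
      · rintro ⟨h3, h4⟩
        refine ⟨⟨h3, fun i => ?_⟩, h4⟩
        by_contra h5
        have h6 := h4 i
        rw [mob, if_neg h5] at h6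
        rcases hσ i with h7 | h7 <;> rw [h7] at h6 <;> norm_num at h6
    rw [h2]
    rw [← hN] at h1
    have h3 : |N / 2 ^ k - (Zq K α d j m).card / 2 ^ k| ≤ ε' * N := by
      rw [← sub_div, abs_div, abs_of_pos (show (0 : ℝ) < 2 ^ k by positivity)]
      have h4 : |N - (Zq K α d j m).card| ≤ ε' * N := by
        rw [abs_le]
        have h5 : (0 : ℝ) ≤ (((Zs K α d j m).filter
          (fun x => ∃ i, ¬ Squarefree (x.1 * x.2 + α i))).card : ℝ) := Nat.cast_nonneg _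
        constructor
        · have : 0 ≤ ε' * N := by positivity
          linarith
        · linarith
      refine le_trans (div_le_self (abs_nonneg _) (one_le_pow₀ (by norm_num))) h4
    have h4 := abs_sub_le ((((Zs K α d j m).filter
      (fun x => ∀ i, mob (x.1 * x.2 + α i) = σ i)).card : ℝ)) (N / 2 ^ k)
      ((Zq K α d j m).card / 2 ^ k : ℝ)
    have h5 : 3 * (ε' * N) ≤ ε * (Zq K α d j m).card := by
      have h6 : (0 : ℝ) ≤ (Zq K α d j m).card := Nat.cast_nonneg _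
      nlinarith
    linarith

end Pool.Agent.H560.E2
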