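import Mathlib
import Pool.Agent.H560.E2.Lev

/-!
# E2: the final form (helper560)
-/

set_option autoImplicit false

namespace Pool.Agent.H560.E2

open Polynomial
open scoped Classical
open Pool.Agent.H985.Chow (mob)
open Pool.Agent.H985.Par (GoodV Sft)
open Pool.Agent.H694.Typ (Mn Irn PU mem_Irn mem_Mn card_Mn mem_PU)
open Pool.Agent.H985.Chow.Asm (card_deg mem_of_natDegree_lt)

section adm

variable {K : Type} [Field K] [Fintype K]

lemma mod_mem {P : K[X]} (hP : P ≠ 0) (x : K[X]) :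
    x % P ∈ (Finset.univ.image (fun u : degreeLT K P.natDegree => (u : K[X]))) := by
  rw [Finset.mem_image]
  refine ⟨⟨x % P, ?_⟩, Finset.mem_univ _, rfl⟩
  rw [mem_degreeLT, ← degree_eq_natDegree hP]
  exact EuclideanDomain.mod_lt _ hP

lemma mod_eq_iff {P : K[X]} (hP : P ≠ 0) (x z : K[X]) : x % P = z % P ↔ P ∣ x - z := by
  constructor
  · intro h
    have h1 := EuclideanDomain.div_add_mod x P
    have h2 := EuclideanDomain.div_add_mod z P
    refine ⟨x / P - z / P, ?_⟩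
    linear_combination -h1 + h2 + h
  · rintro ⟨u, hu⟩
    have h1 := EuclideanDomain.div_add_mod x P
    have h2 := EuclideanDomain.div_add_mod z P
    have h3 : P ∣ x % P - z % P := by
      refine ⟨u - x / P + z / P, ?_⟩
      linear_combination h1 - h2 + hu
    have h4 : (x % P - z % P).degree < P.degree :=
      lt_of_le_of_lt (degree_sub_le _ _)
        (max_lt (EuclideanDomain.mod_lt _ hP) (EuclideanDomain.mod_lt _ hP))
    exact sub_eq_zero.1 (eq_zero_of_dvd_of_degree_lt h3 h4)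

theorem adm_of [CharP K 2] {k : ℕ} (α : Fin k → K[X]) (m : ℕ)
    (h : ∀ P : K[X], Irreducible P → ∃ x : K[X], ¬ P ∣ x ∧ ∀ i, ¬ P ∣ x + α i) : Adm α m := by
  intro P hP
  obtain ⟨hPm, hPi, -⟩ := mem_PU.1 hP
  have hP0 := hPi.ne_zero
  obtain ⟨x, hx, hxα⟩ := h P hPi
  have h0 : (0 : K[X]) % P = 0 := EuclideanDomain.zero_mod _
  have h1 : x % P ≠ 0 := by
    rw [← h0]
    intro h2
    rw [mod_eq_iff hP0, sub_zero] at h2
    exact hx h2
  have h2 : ∀ i, x % P ≠ α i % P := by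
    intro i h3
    rw [mod_eq_iff hP0, CharTwo.sub_eq_add] at h3
    exact hxα i h3
  have hsub : insert (x % P) (insert 0 ((Finset.univ.image (fun i => α i % P)).erase 0)) ⊆
      Finset.univ.image (fun u : degreeLT K P.natDegree => (u : K[X])) := by
    intro z hz
    rw [Finset.mem_insert, Finset.mem_insert] at hz
    rcases hz with rfl | rfl | hz
    · exact mod_mem hP0 x
    · rw [← h0]
      exact mod_mem hP0 0
    · obtain ⟨i, -, hi⟩ := Finset.mem_image.1 (Finset.mem_of_mem_erase hz)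
      rw [← hi]
      exact mod_mem hP0 _
  have h3 := Finset.card_le_card hsub
  rw [Finset.card_insert_of_notMem, Finset.card_insert_of_notMem (Finset.notMem_erase _ _)] at h3
  · have h4 : (Finset.univ.image (fun u : degreeLT K P.natDegree => (u : K[X]))).card ≤
        Fintype.card K ^ P.natDegree := by
      refine Finset.card_image_le.trans ?_
      rw [Finset.card_univ, card_deg]
    unfold om
    omega
  · intro h4
    rw [Finset.mem_insert] at h4
    rcases h4 with h4 | h4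
    · exact h1 h4
    · obtain ⟨i, -, hi⟩ := Finset.mem_image.1 (Finset.mem_of_mem_erase h4)
      exact h2 i hi.symm

end adm

section uniq

variable {K : Type} [Field K]

lemma pair_inj {p g p' g' : K[X]} (hp : p.Monic) (hpi : Irreducible p) (hp' : p'.Monic) (hpi' : Irreducible p') (hg' : g'.Monic)
    (hgi' : Irreducible g') (h1 : p.natDegree < g.natDegree) (h2 : p'.natDegree < g'.natDegree)
    (h : p * g = p' * g') : p = p' ∧ g = g' := by
  have h3 : p ∣ p' * g' := ⟨g, h.symm⟩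
  rcases hpi.prime.dvd_or_dvd h3 with h4 | h4
  · have h5 : p = p' := eq_of_monic_of_associated hp hp' (hpi.associated_of_dvd hpi' h4)
    refine ⟨h5, ?_⟩
    rw [h5] at h
    exact mul_left_cancel₀ hpi'.ne_zero h
  · have h5 : p = g' := eq_of_monic_of_associated hp hg' (hpi.associated_of_dvd hgi' h4)
    exfalso
    rw [h5, mul_comm p' g'] at h
    have h6 : g = p' := mul_left_cancel₀ hgi'.ne_zero h
    rw [h5, h6] at h1
    omega

/-- The number of the irreducible factors of `F`, counted with multiplicity. -/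
noncomputable def numFactors (F : K[X]) : ℕ :=
  Multiset.card (UniqueFactorizationMonoid.factors F)

lemma mob_even {F : K[X]} (h : Squarefree F) : Even (numFactors F) ↔ mob F = 1 := by
  have h1 : mob F = (-1) ^ (numFactors F) := by
    rw [mob, if_pos h]
    rfl
  rw [h1]
  constructor
  · intro h2
    exact h2.neg_one_pow
  · intro h2
    by_contra h3
    rw [Nat.not_even_iff_odd] at h3
    rw [h3.neg_one_pow] at h2
    norm_num at h2

end uniq

/-- The monic polynomials `f` of degree `n` which are a product of exactly two irreducible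
polynomials, the degree of one of them in `[a, b]` and the other degree odd, such that the
`f + α i` are squarefree without irreducible factor of degree at most `y`. -/
def W (K : Type) [Field K] {k : ℕ} (α : Fin k → K[X]) (a b y : ℝ) (n : ℕ) : Set K[X] :=
  {f | f.Monic ∧ f.natDegree = n ∧
    (∃ p₁ p₂ : K[X], Irreducible p₁ ∧ Irreducible p₂ ∧ f = p₁ * p₂ ∧ a ≤ (p₁.natDegree : ℝ) ∧
      (p₁.natDegree : ℝ) ≤ b ∧ Odd p₂.natDegree ∧ ∀ i, ¬ p₁ ∣ α i) ∧
    ∀ i, Squarefree (f + α i) ∧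
      ∀ P : K[X], Irreducible P → P ∣ f + α i → y < (P.natDegree : ℝ)}

section count

variable {K : Type} [Field K] [Fintype K]

/-- the degrees `j` -/
noncomputable def Js (a b : ℝ) (n : ℕ) : Finset ℕ :=
  (Finset.range (n + 1)).filter (fun j => a ≤ (j : ℝ) ∧ (j : ℝ) ≤ b ∧ Odd (n - j))

/-- the pairs -/
noncomputable def ZZ (K : Type) [Field K] [Fintype K] {k : ℕ} (α : Fin k → K[X]) (a b : ℝ)
    (m n : ℕ) : Finset (K[X] × K[X]) :=
  (Js a b n).biUnion (fun j => Zq K α ((n - 1 - j) / 2) j m)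

lemma mem_Zq {k : ℕ} {α : Fin k → K[X]} {d j m : ℕ} {x : K[X] × K[X]} :
    x ∈ Zq K α d j m ↔ x.1 ∈ Irn K j ∧ (∀ i, ¬ x.1 ∣ α i) ∧ x.2 ∈ Irn K (2 * d + 1) ∧
      (∀ i, Sft m (x.1 * x.2 + α i)) ∧ ∀ i, Squarefree (x.1 * x.2 + α i) := by
  unfold Zq Zs
  rw [Finset.mem_filter, Finset.mem_filter, Finset.mem_product, Finset.mem_filter]
  tauto

lemma card_ZZ {k : ℕ} (α : Fin k → K[X]) (a b : ℝ) (m n : ℕ)
    (p : K[X] × K[X] → Prop) [DecidablePred p] :
    ((ZZ K α a b m n).filter p).card =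
      ∑ j ∈ Js a b n, ((Zq K α ((n - 1 - j) / 2) j m).filter p).card := by
  unfold ZZ
  rw [Finset.filter_biUnion, Finset.card_biUnion]
  intro j _ j' _ hjj
  rw [Function.onFun, Finset.disjoint_left]
  intro x hx hx'
  rw [Finset.mem_filter, mem_Zq] at hx hx'
  have h1 := (mem_Irn.1 hx.1.1).2.1
  have h2 := (mem_Irn.1 hx'.1.1).2.1
  exact hjj (h1.symm.trans h2)

omit [Fintype K] in
lemma Sft_iff {y : ℝ} {F : K[X]} : Sft ⌊y⌋₊ F ↔
    ∀ P : K[X], Irreducible P → P ∣ F → y < (P.natDegree : ℝ) := by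
  constructor
  · intro h P hPi hPd
    have hP0 := hPi.ne_zero
    have hlc : P.leadingCoeff ≠ 0 := leadingCoeff_ne_zero.2 hP0
    have hm : (C P.leadingCoeff⁻¹ * P).Monic :=
      monic_C_mul_of_mul_leadingCoeff_eq_one (inv_mul_cancel₀ hlc)
    have hu : IsUnit (C P.leadingCoeff⁻¹ : K[X]) :=
      isUnit_C.2 (isUnit_iff_ne_zero.2 (inv_ne_zero hlc))
    have hass : Associated P (C P.leadingCoeff⁻¹ * P) := (associated_unit_mul_left P _ hu).symm
    have h1 := h _ hm (hass.irreducible hPi) (hass.symm.dvd.trans hPd)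
    rw [natDegree_C_mul (inv_ne_zero hlc)] at h1
    exact Nat.lt_of_floor_lt h1
  · intro h P hPm hPi hPd
    have h1 := h P hPi hPd
    have hpos : 0 < P.natDegree := hPi.natDegree_pos
    by_cases hy : 0 ≤ y
    · exact (Nat.floor_lt hy).2 h1
    · rw [Nat.floor_of_nonpos (by linarith)]
      exact hpos

lemma W_eq {k : ℕ} (α : Fin k → K[X]) (a b y : ℝ) (n : ℕ) :
    W K α a b y n = (fun x : K[X] × K[X] => x.1 * x.2) '' (ZZ K α a b ⌊y⌋₊ n : Set (K[X] × K[X])) := by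
  ext f
  constructor
  · rintro ⟨hf, hfn, ⟨p₁, p₂, h1, h2, h3, h4, h5, h6, h7⟩, h8⟩
    have hl1 : p₁.leadingCoeff ≠ 0 := leadingCoeff_ne_zero.2 h1.ne_zero
    have hl2 : p₂.leadingCoeff ≠ 0 := leadingCoeff_ne_zero.2 h2.ne_zero
    have hlm : p₁.leadingCoeff * p₂.leadingCoeff = 1 := by
      rw [← leadingCoeff_mul, ← h3]
      exact hf
    have hu1 : IsUnit (C p₁.leadingCoeff⁻¹ : K[X]) :=
      isUnit_C.2 (isUnit_iff_ne_zero.2 (inv_ne_zero hl1))
    have hu2 : IsUnit (C p₂.leadingCoeff⁻¹ : K[X]) :=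
      isUnit_C.2 (isUnit_iff_ne_zero.2 (inv_ne_zero hl2))
    have ha1 : Associated p₁ (C p₁.leadingCoeff⁻¹ * p₁) :=
      (associated_unit_mul_left p₁ _ hu1).symm
    have ha2 : Associated p₂ (C p₂.leadingCoeff⁻¹ * p₂) :=
      (associated_unit_mul_left p₂ _ hu2).symm
    have hm1 : (C p₁.leadingCoeff⁻¹ * p₁).Monic :=
      monic_C_mul_of_mul_leadingCoeff_eq_one (inv_mul_cancel₀ hl1)
    have hm2 : (C p₂.leadingCoeff⁻¹ * p₂).Monic :=
      monic_C_mul_of_mul_leadingCoeff_eq_one (inv_mul_cancel₀ hl2)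
    have hd1 : (C p₁.leadingCoeff⁻¹ * p₁).natDegree = p₁.natDegree :=
      natDegree_C_mul (inv_ne_zero hl1)
    have hd2 : (C p₂.leadingCoeff⁻¹ * p₂).natDegree = p₂.natDegree :=
      natDegree_C_mul (inv_ne_zero hl2)
    have hfe : (C p₁.leadingCoeff⁻¹ * p₁) * (C p₂.leadingCoeff⁻¹ * p₂) = f := by
      rw [h3]
      have h9 : (C p₁.leadingCoeff⁻¹ : K[X]) * C p₂.leadingCoeff⁻¹ = 1 := by
        rw [← C_mul, ← mul_inv, hlm, inv_one, C_1]
      calc (C p₁.leadingCoeff⁻¹ * p₁) * (C p₂.leadingCoeff⁻¹ * p₂)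
          = (C p₁.leadingCoeff⁻¹ * C p₂.leadingCoeff⁻¹) * (p₁ * p₂) := by ring
        _ = p₁ * p₂ := by rw [h9, one_mul]
    have hn : p₁.natDegree + p₂.natDegree = n := by
      rw [← hfn, h3, natDegree_mul h1.ne_zero h2.ne_zero]
    obtain ⟨t, ht⟩ := h6
    refine ⟨(C p₁.leadingCoeff⁻¹ * p₁, C p₂.leadingCoeff⁻¹ * p₂), ?_, hfe⟩
    rw [Finset.mem_coe]
    unfold ZZ
    rw [Finset.mem_biUnion]
    refine ⟨p₁.natDegree, ?_, ?_⟩
    · unfold Js
      rw [Finset.mem_filter, Finset.mem_range]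
      refine ⟨by omega, h4, h5, ?_⟩
      have h9 : n - p₁.natDegree = p₂.natDegree := by omega
      rw [h9]
      exact ⟨t, ht⟩
    · rw [mem_Zq]
      refine ⟨mem_Irn.2 ⟨hm1, hd1, ha1.irreducible h1⟩, fun i hi => h7 i (ha1.dvd.trans hi),
        mem_Irn.2 ⟨hm2, ?_, ha2.irreducible h2⟩, fun i => ?_, fun i => ?_⟩
      · rw [hd2]
        omega
      · simp only
        rw [hfe]
        exact Sft_iff.2 (h8 i).2
      · simp only
        rw [hfe]
        exact (h8 i).1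
  · rintro ⟨⟨p, g⟩, hx, rfl⟩
    rw [Finset.mem_coe] at hx
    unfold ZZ at hx
    rw [Finset.mem_biUnion] at hx
    obtain ⟨j, hj, hx⟩ := hx
    unfold Js at hj
    rw [Finset.mem_filter, Finset.mem_range] at hj
    obtain ⟨hj0, hja, hjb, s, hs⟩ := hj
    rw [mem_Zq] at hx
    obtain ⟨h1, h2, h3, h4, h5⟩ := hx
    simp only at h1 h2 h3 h4 h5 ⊢
    obtain ⟨hpm, hpd, hpi⟩ := mem_Irn.1 h1
    obtain ⟨hgm, hgd, hgi⟩ := mem_Irn.1 h3
    have hn : (p * g).natDegree = n := by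
      rw [hpm.natDegree_mul hgm, hpd, hgd]
      omega
    refine ⟨hpm.mul hgm, hn, ⟨p, g, hpi, hgi, rfl, by rw [hpd]; exact hja, by rw [hpd]; exact hjb,
      by rw [hgd]; exact ⟨_, rfl⟩, h2⟩, fun i => ⟨h5 i, ?_⟩⟩
    exact Sft_iff.1 (h4 i)

lemma inj_ZZ {k : ℕ} (α : Fin k → K[X]) (a b : ℝ) (m n : ℕ) (hb : b < n / 2) :
    Set.InjOn (fun x : K[X] × K[X] => x.1 * x.2) (ZZ K α a b m n : Set (K[X] × K[X])) := by
  have key : ∀ x ∈ ZZ K α a b m n, x.1.Monic ∧ Irreducible x.1 ∧ x.2.Monic ∧ Irreducible x.2 ∧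
      x.1.natDegree < x.2.natDegree := by
    intro x hx
    unfold ZZ at hx
    rw [Finset.mem_biUnion] at hx
    obtain ⟨j, hj, hx⟩ := hx
    unfold Js at hj
    rw [Finset.mem_filter, Finset.mem_range] at hj
    obtain ⟨hj0, hja, hjb, s, hs⟩ := hj
    rw [mem_Zq] at hx
    obtain ⟨h1, h2, h3, h4, h5⟩ := hx
    obtain ⟨hpm, hpd, hpi⟩ := mem_Irn.1 h1
    obtain ⟨hgm, hgd, hgi⟩ := mem_Irn.1 h3
    refine ⟨hpm, hpi, hgm, hgi, ?_⟩
    have h6 : (j : ℝ) < n / 2 := lt_of_le_of_lt hjb hb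
    have h7 : 2 * j < n := by
      have : 2 * (j : ℝ) < n := by linarith
      exact_mod_cast this
    omega
  intro x hx x' hx' h
  obtain ⟨h1, h2, h3, h4, h5⟩ := key x hx
  obtain ⟨h1', h2', h3', h4', h5'⟩ := key x' hx'
  obtain ⟨h6, h7⟩ := pair_inj h1 h2 h1' h2' h3' h4' h5 h5' h
  exact Prod.ext h6 h7

lemma Js_card (η : ℝ) (hη : 0 < η) (hη1 : η ≤ 1 / 16) (n : ℕ) (hn : 32 / η ≤ n) :
    η / 16 * n ≤ (Js (η / 2 * n) (3 * η / 4 * n) n).card := by
  have hn0 : 0 ≤ (n : ℝ) := Nat.cast_nonneg _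
  have h32 : 32 ≤ η * n := by
    rw [div_le_iff₀ hη] at hn
    linarith
  obtain ⟨j₀, hj₀⟩ : ∃ j₀, j₀ = ⌈η / 2 * n⌉₊ := ⟨_, rfl⟩
  have hj1 : η / 2 * n ≤ j₀ := by rw [hj₀]; exact Nat.le_ceil _
  have hj2 : (j₀ : ℝ) < η / 2 * n + 1 := by rw [hj₀]; exact Nat.ceil_lt_add_one (by positivity)
  obtain ⟨j₁, hj₁, hj₁', hodd⟩ : ∃ j₁ : ℕ, j₀ ≤ j₁ ∧ j₁ ≤ j₀ + 1 ∧ (n + j₁) % 2 = 1 := by
    rcases Nat.mod_two_eq_zero_or_one (n + j₀) with h | h
    · exact ⟨j₀ + 1, by omega, le_rfl, by omega⟩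
    · exact ⟨j₀, le_rfl, by omega, h⟩
  obtain ⟨t, ht⟩ : ∃ t, t = ⌊η / 16 * n⌋₊ := ⟨_, rfl⟩
  have ht1 : (t : ℝ) ≤ η / 16 * n := by rw [ht]; exact Nat.floor_le (by positivity)
  have ht2 : η / 16 * n < t + 1 := by rw [ht]; exact Nat.lt_floor_add_one _
  have hsub : (Finset.range (t + 1)).image (fun i => j₁ + 2 * i) ⊆
      Js (η / 2 * n) (3 * η / 4 * n) n := by
    intro j hj
    rw [Finset.mem_image] at hj
    obtain ⟨i, hi, rfl⟩ := hj
    rw [Finset.mem_range] at hi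
    have hir : (i : ℝ) ≤ t := by exact_mod_cast (by omega : i ≤ t)
    have hj1r : (j₁ : ℝ) ≤ j₀ + 1 := by exact_mod_cast hj₁'
    have hj1r' : (j₀ : ℝ) ≤ j₁ := by exact_mod_cast hj₁
    have hup : ((j₁ + 2 * i : ℕ) : ℝ) ≤ 3 * η / 4 * n := by
      push_cast
      linarith
    have hle : j₁ + 2 * i ≤ n := by
      have h1 : ((j₁ + 2 * i : ℕ) : ℝ) ≤ n := by
        refine hup.trans ?_
        nlinarith
      exact_mod_cast h1
    unfold Js
    rw [Finset.mem_filter, Finset.mem_range]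
    refine ⟨by omega, ?_, hup, ?_⟩
    · push_cast
      have : (0 : ℝ) ≤ i := Nat.cast_nonneg _
      linarith
    · rw [Nat.odd_iff]
      omega
  have hcard := Finset.card_le_card hsub
  rw [Finset.card_image_of_injective _ (fun a b h => by
    have : j₁ + 2 * a = j₁ + 2 * b := h
    omega), Finset.card_range] at hcard
  have h1 : ((t + 1 : ℕ) : ℝ) ≤ (Js (η / 2 * n) (3 * η / 4 * n) n).card := by exact_mod_cast hcard
  push_cast at h1
  linarith

end count

/-- **The final theorem.** -/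
def S_top : Prop :=
  ∀ (K : Type) [Field K] [Fintype K] [CharP K 2] (k : ℕ) (ε : ℝ), 1 ≤ k → 0 < ε →
    ∃ a b κ c : ℝ, 0 < a ∧ a < b ∧ b < 1 / 2 ∧ 0 < κ ∧ 0 < c ∧ ∃ n₀ : ℕ, ∀ n : ℕ, n₀ ≤ n →
      ∀ α : Fin k → K[X], Function.Injective α → (∀ i, α i ≠ 0) → (∀ i, (α i).natDegree < n) →
        (∀ P : K[X], Irreducible P → ∃ x : K[X], ¬ P ∣ x ∧ ∀ i, ¬ P ∣ x + α i) →
        c * (Fintype.card K : ℝ) ^ n / (n : ℝ) ^ (k + 1) ≤ (W K α (a * n) (b * n) (κ * n) n).ncard ∧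
        ∀ S : Set (Fin k),
          |({f ∈ W K α (a * n) (b * n) (κ * n) n |
              ∀ i, Even (numFactors (f + α i)) ↔ i ∈ S}.ncard : ℝ) -
            (W K α (a * n) (b * n) (κ * n) n).ncard / 2 ^ k| ≤
              ε * (W K α (a * n) (b * n) (κ * n) n).ncard

theorem top (hlev : S_lev) : S_top := by
  intro K _ _ _ k ε hk hε
  obtain ⟨q, hqdef⟩ : ∃ q : ℝ, q = Fintype.card K := ⟨_, rfl⟩
  have hq1 : (1 : ℝ) < q := by rw [hqdef]; exact_mod_cast Fintype.one_lt_card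
  have hq0 : (0 : ℝ) < q := by linarith
  obtain ⟨η, κ, c, hη, hη16, hκ, hκ16, hc, n₁, h⟩ := hlev K k ε hk hε
  obtain ⟨n₂, hn₂⟩ := exists_nat_gt (32 / η)
  obtain ⟨n₃, hn₃⟩ := exists_nat_gt (32 / κ)
  refine ⟨η / 2, 3 * η / 4, κ / 3, c * (η / 16), by linarith, by linarith, by linarith, by linarith,
    by positivity, 4 * n₁ + n₂ + n₃ + 8, ?_⟩
  intro n hn α hα hα0 hαd hloc
  have hnr : (8 : ℝ) ≤ n := by exact_mod_cast (by omega : 8 ≤ n)
  have hn0 : (0 : ℝ) < n := by linarith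
  have hηn : 32 / η ≤ n := hn₂.le.trans (by exact_mod_cast (by omega : n₂ ≤ n))
  have hκn : 32 ≤ κ * n := by
    have h1 : 32 / κ ≤ n := hn₃.le.trans (by exact_mod_cast (by omega : n₃ ≤ n))
    rw [div_le_iff₀ hκ] at h1
    linarith
  obtain ⟨m, hm⟩ : ∃ m, m = ⌊κ / 3 * (n : ℝ)⌋₊ := ⟨_, rfl⟩
  have hm1 : (m : ℝ) ≤ κ / 3 * n := by rw [hm]; exact Nat.floor_le (by positivity)
  have hm2 : κ / 3 * n < m + 1 := by rw [hm]; exact Nat.lt_floor_add_one _
  have hb : 3 * η / 4 * (n : ℝ) < n / 2 := by nlinarith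
  have hadm : Adm α m := adm_of α m hloc
  -- one degree `j`
  have hj : ∀ j ∈ Js (η / 2 * n) (3 * η / 4 * n) n,
      c * q ^ n / (n : ℝ) ^ (k + 2) ≤ (Zq K α ((n - 1 - j) / 2) j m).card ∧
      ∀ σ : Fin k → ℤ, (∀ i, σ i = 1 ∨ σ i = -1) →
        |(((Zq K α ((n - 1 - j) / 2) j m).filter
            (fun x => ∀ i, mob (x.1 * x.2 + α i) = σ i)).card : ℝ) -
          (Zq K α ((n - 1 - j) / 2) j m).card / 2 ^ k| ≤
            ε * (Zq K α ((n - 1 - j) / 2) j m).card := by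
    intro j hj
    unfold Js at hj
    rw [Finset.mem_filter, Finset.mem_range] at hj
    obtain ⟨hj0, hja, hjb, s, hs⟩ := hj
    obtain ⟨d, hd⟩ : ∃ d, d = (n - 1 - j) / 2 := ⟨_, rfl⟩
    rw [← hd]
    have hdn : 2 * d + 1 + j = n := by omega
    have hdnr : 2 * (d : ℝ) + 1 + j = n := by exact_mod_cast hdn
    have hηn' : η * n ≤ 1 / 16 * n := mul_le_mul_of_nonneg_right hη16 hn0.le
    have hd4 : (n : ℝ) / 4 ≤ d := by linarith
    have hdn1 : n₁ ≤ d := by
      have h1 : (n₁ : ℝ) ≤ d := by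
        have h2 : (4 * n₁ : ℝ) ≤ n := by exact_mod_cast (by omega : 4 * n₁ ≤ n)
        linarith
      exact_mod_cast h1
    have hd0 : (0 : ℝ) < d := by linarith
    have hη2 : η * d ≤ η * (n / 2) := mul_le_mul_of_nonneg_left (by linarith) hη.le
    have hη3 : 2 * η * d ≥ 3 * η / 4 * n := by
      have h1 : 2 * (d : ℝ) ≥ 3 / 4 * n := by linarith
      nlinarith
    have hκ1 : κ / 2 * d ≤ m := by
      have h1 : κ / 2 * d ≤ κ / 2 * (n / 2) := mul_le_mul_of_nonneg_left (by linarith) (by linarith)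
      nlinarith
    have hκ2 : (m : ℝ) ≤ κ * d := by
      have h1 : (n : ℝ) / 3 ≤ d := by linarith
      nlinarith
    obtain ⟨h1, h2⟩ := h d j m hdn1 (by linarith) (by linarith) hκ1 hκ2 α hα hα0
      (by rw [hdn]; exact hαd) hadm
    refine ⟨?_, h2⟩
    rw [← hqdef, hdn] at h1
    refine le_trans ?_ h1
    apply div_le_div_of_nonneg_left (by positivity) (by positivity)
    exact pow_le_pow_left₀ hd0.le (by linarith) _
  -- the whole set
  obtain ⟨Z, hZ⟩ : ∃ Z, Z = ZZ K α (η / 2 * n) (3 * η / 4 * n) m n := ⟨_, rfl⟩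
  have hW := W_eq α (η / 2 * n) (3 * η / 4 * n) (κ / 3 * n) n
  have hinj := inj_ZZ α (η / 2 * n) (3 * η / 4 * n) m n hb
  rw [← hm, ← hZ] at hW
  rw [← hZ] at hinj
  have hWc : (W K α (η / 2 * n) (3 * η / 4 * n) (κ / 3 * n) n).ncard = Z.card := by
    rw [hW, Set.InjOn.ncard_image hinj, Set.ncard_coe_finset]
  have hZc : (Z.card : ℝ) = ∑ j ∈ Js (η / 2 * n) (3 * η / 4 * n) n,
      ((Zq K α ((n - 1 - j) / 2) j m).card : ℝ) := by
    have h1 := card_ZZ α (η / 2 * n) (3 * η / 4 * n) m n (fun _ => True)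
    simp only [Finset.filter_true] at h1
    rw [hZ, h1]
    push_cast
    rfl
  rw [← hqdef, hWc]
  constructor
  · rw [hZc]
    have h1 := Js_card η hη hη16 n hηn
    have h2 : ((Js (η / 2 * n) (3 * η / 4 * n) n).card : ℝ) * (c * q ^ n / (n : ℝ) ^ (k + 2)) ≤
        ∑ j ∈ Js (η / 2 * n) (3 * η / 4 * n) n, ((Zq K α ((n - 1 - j) / 2) j m).card : ℝ) := by
      rw [← nsmul_eq_mul, ← Finset.sum_const]
      exact Finset.sum_le_sum fun j hj' => (hj j hj').1
    refine le_trans ?_ h2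
    have h3 : c * (η / 16) * q ^ n / (n : ℝ) ^ (k + 1) =
        η / 16 * n * (c * q ^ n / (n : ℝ) ^ (k + 2)) := by
      rw [show k + 2 = (k + 1) + 1 by ring, pow_succ (n : ℝ) (k + 1)]
      field_simp
    rw [h3]
    exact mul_le_mul_of_nonneg_right h1 (by positivity)
  · intro S
    obtain ⟨σ, hσ⟩ : ∃ σ : Fin k → ℤ, σ = fun i => if i ∈ S then 1 else -1 := ⟨_, rfl⟩
    have hσ1 : ∀ i, σ i = 1 ∨ σ i = -1 := by
      intro i
      rw [hσ]
      simp only
      split_ifs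
      · exact Or.inl rfl
      · exact Or.inr rfl
    have hset : {f ∈ W K α (η / 2 * n) (3 * η / 4 * n) (κ / 3 * n) n |
        ∀ i, Even (numFactors (f + α i)) ↔ i ∈ S} =
        (fun x : K[X] × K[X] => x.1 * x.2) ''
          ((Z.filter (fun x => ∀ i, mob (x.1 * x.2 + α i) = σ i) : Finset (K[X] × K[X])) :
            Set (K[X] × K[X])) := by
      have key : ∀ x ∈ Z, ((∀ i, Even (numFactors (x.1 * x.2 + α i)) ↔ i ∈ S) ↔
          ∀ i, mob (x.1 * x.2 + α i) = σ i) := by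
        intro x hx
        refine forall_congr' fun i => ?_
        have hsq : Squarefree (x.1 * x.2 + α i) := by
          rw [hZ] at hx
          unfold ZZ at hx
          rw [Finset.mem_biUnion] at hx
          obtain ⟨j, -, hx⟩ := hx
          exact (mem_Zq.1 hx).2.2.2.2 i
        rw [mob_even hsq, hσ]
        simp only
        rcases mob_sqf hsq with h1 | h1 <;> rw [h1] <;> split_ifs with h2 <;> simp [h2]
      ext f
      constructor
      · rintro ⟨hf, hS⟩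
        rw [hW] at hf
        obtain ⟨x, hx, rfl⟩ := hf
        refine ⟨x, ?_, rfl⟩
        rw [Finset.mem_coe, Finset.mem_filter]
        exact ⟨hx, (key x hx).1 hS⟩
      · rintro ⟨x, hx, rfl⟩
        rw [Finset.mem_coe, Finset.mem_filter] at hx
        refine ⟨?_, (key x hx.1).2 hx.2⟩
        rw [hW]
        exact ⟨x, hx.1, rfl⟩
    have hc1 : ({f ∈ W K α (η / 2 * n) (3 * η / 4 * n) (κ / 3 * n) n |
        ∀ i, Even (numFactors (f + α i)) ↔ i ∈ S}.ncard : ℝ) =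
        ∑ j ∈ Js (η / 2 * n) (3 * η / 4 * n) n, (((Zq K α ((n - 1 - j) / 2) j m).filter
          (fun x => ∀ i, mob (x.1 * x.2 + α i) = σ i)).card : ℝ) := by
      rw [hset, Set.InjOn.ncard_image (hinj.mono (by
        rw [Finset.coe_subset]
        exact Finset.filter_subset _ _)), Set.ncard_coe_finset, hZ, card_ZZ]
      push_cast
      rfl
    rw [hc1, hZc, Finset.sum_div, ← Finset.sum_sub_distrib, Finset.mul_sum]
    exact (Finset.abs_sum_le_sum_abs _ _).trans (Finset.sum_le_sum fun j hj' => (hj j hj').2 σ hσ1)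

end Pool.Agent.H560.E2
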