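import Mathlib
import Pool.Agent.H560.E2.WinA

/-!
# E2, task WIN: the fibre bound for two primes (helper560, after helper233)
-/

set_option autoImplicit false

namespace Pool.Agent.H560.E2

open Polynomial
open scoped Classical
open Pool.Agent.H985.Chow (mob MD)
open Pool.Agent.H985.KP (PA mobg)
open Pool.Agent.H985.Par (GoodV Sft Fb)
open Pool.Agent.H985.Chow.Asm
open Pool.Agent.H604.FC.Asm4
open Pool.Agent.H233.Par
open Pool.Agent.H694.Typ (Mn Irn PU mem_Irn mem_Mn)

section shifts

variable {K : Type} [Field K]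

/-- the joint family -/
noncomputable def two {k : ℕ} (x : K[X]) (s : Fin k → K[X]) (x' : K[X]) (s' : Fin k → K[X]) :
    Fin (k + k) → K[X] := Fin.append (fun i => x * s i) (fun i => x' * s' i)

lemma two_left {k : ℕ} (x : K[X]) (s : Fin k → K[X]) (x' : K[X]) (s' : Fin k → K[X]) (i : Fin k) :
    two x s x' s' (Fin.castAdd k i) = x * s i := by
  unfold two
  rw [Fin.append_left]

lemma two_right {k : ℕ} (x : K[X]) (s : Fin k → K[X]) (x' : K[X]) (s' : Fin k → K[X]) (i : Fin k) :
    two x s x' s' (Fin.natAdd k i) = x' * s' i := by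
  unfold two
  rw [Fin.append_right]

lemma all_two {k : ℕ} {p : Fin (k + k) → Prop} (h1 : ∀ i, p (Fin.castAdd k i))
    (h2 : ∀ i, p (Fin.natAdd k i)) (i : Fin (k + k)) : p i :=
  Fin.addCases h1 h2 i

lemma classes {n : ℕ} (hn : 1 ≤ n) (t : Fin n → K[X]) :
    ∃ (r : ℕ) (τ : Fin r → K[X]) (cl : Fin n → Fin r),
      Function.Injective τ ∧ (∀ i, τ (cl i) = t i) ∧ Function.Surjective cl ∧ r ≤ n ∧ 0 < r := by
  obtain ⟨r, τ, cl, h1, h2, h3, h4⟩ : ∃ (r : ℕ) (τ : Fin r → K[X]) (cl : Fin n → Fin r),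
      Function.Injective τ ∧ (∀ i, τ (cl i) = t i) ∧ Function.Surjective cl ∧ r ≤ n := by
    refine ⟨(Finset.univ.image t).card, fun l => ((Finset.univ.image t).equivFin.symm l : K[X]),
      fun i => (Finset.univ.image t).equivFin ⟨t i, Finset.mem_image_of_mem t (Finset.mem_univ i)⟩,
      ?_, ?_, ?_, ?_⟩
    · intro l l' h
      exact (Finset.univ.image t).equivFin.symm.injective (Subtype.ext h)
    · intro i
      simp
    · intro l
      have h1 := ((Finset.univ.image t).equivFin.symm l).2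
      rw [Finset.mem_image] at h1
      obtain ⟨i, -, hi⟩ := h1
      refine ⟨i, ?_⟩
      apply (Finset.univ.image t).equivFin.symm.injective
      rw [Equiv.symm_apply_apply]
      exact Subtype.ext hi
    · refine Finset.card_image_le.trans ?_
      rw [Finset.card_univ, Fintype.card_fin]
  refine ⟨r, τ, cl, h1, h2, h3, h4, ?_⟩
  have := (cl ⟨0, by omega⟩).2
  omega

lemma two_inj {k : ℕ} {α s t s' t' : Fin k → K[X]} {p p' : K[X]} (hp : p.Monic)
    (hpi : Irreducible p) (hp' : p'.Monic) (hpi' : Irreducible p') (hne : p ≠ p')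
    (hα : Function.Injective α) (hpα : ∀ i, ¬ p ∣ α i)
    (hs : ∀ i, p * α i = s i ^ 2 + X * t i ^ 2) (hs' : ∀ i, p' * α i = s' i ^ 2 + X * t' i ^ 2)
    (i l : Fin (k + k)) (h1 : two p' s p s' i = two p' s p s' l)
    (h2 : two p' t p t' i = two p' t p t' l) : i = l := by
  have hp0 : p ≠ 0 := hpi.ne_zero
  have hp0' : p' ≠ 0 := hpi'.ne_zero
  have key : ∀ x y : Fin k, p' * s x = p * s' y → p' * t x = p * t' y → False := by
    intro x y h3 h4
    have h5 : p' ^ 2 * (p * α x) = p ^ 2 * (p' * α y) := by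
      rw [hs, hs']
      calc p' ^ 2 * (s x ^ 2 + X * t x ^ 2) = (p' * s x) ^ 2 + X * (p' * t x) ^ 2 := by ring
        _ = (p * s' y) ^ 2 + X * (p * t' y) ^ 2 := by rw [h3, h4]
        _ = _ := by ring
    have h6 : (p * p') * (p' * α x) = (p * p') * (p * α y) := by
      calc (p * p') * (p' * α x) = p' ^ 2 * (p * α x) := by ring
        _ = p ^ 2 * (p' * α y) := h5
        _ = _ := by ring
    have h7 := mul_left_cancel₀ (mul_ne_zero hp0 hp0') h6
    have h8 : p ∣ p' * α x := ⟨α y, h7⟩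
    rcases hpi.prime.dvd_or_dvd h8 with h9 | h9
    · exact hne (eq_of_monic_of_associated hp hp' (hpi.associated_of_dvd hpi' h9))
    · exact hpα x h9
  have key1 : ∀ x y : Fin k, p' * s x = p' * s y → p' * t x = p' * t y → x = y := by
    intro x y h3 h4
    have h5 := mul_left_cancel₀ hp0' h3
    have h6 := mul_left_cancel₀ hp0' h4
    apply hα
    apply mul_left_cancel₀ hp0
    rw [hs, hs, h5, h6]
  have key2 : ∀ x y : Fin k, p * s' x = p * s' y → p * t' x = p * t' y → x = y := by
    intro x y h3 h4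
    have h5 := mul_left_cancel₀ hp0 h3
    have h6 := mul_left_cancel₀ hp0 h4
    apply hα
    apply mul_left_cancel₀ hp0'
    rw [hs', hs', h5, h6]
  revert h1 h2
  refine all_two (p := fun i => two p' s p s' i = two p' s p s' l →
    two p' t p t' i = two p' t p t' l → i = l) (fun x => ?_) (fun x => ?_) i
  · refine all_two (p := fun l => two p' s p s' (Fin.castAdd k x) = two p' s p s' l →
      two p' t p t' (Fin.castAdd k x) = two p' t p t' l → Fin.castAdd k x = l)
      (fun y => ?_) (fun y => ?_) l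
    · rw [two_left, two_left, two_left, two_left]
      intro h1 h2
      rw [key1 x y h1 h2]
    · rw [two_left, two_right, two_left, two_right]
      intro h1 h2
      exact (key x y h1 h2).elim
  · refine all_two (p := fun l => two p' s p s' (Fin.natAdd k x) = two p' s p s' l →
      two p' t p t' (Fin.natAdd k x) = two p' t p t' l → Fin.natAdd k x = l)
      (fun y => ?_) (fun y => ?_) l
    · rw [two_left, two_right, two_left, two_right]
      intro h1 h2
      exact (key y x h1.symm h2.symm).elim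
    · rw [two_right, two_right, two_right, two_right]
      intro h1 h2
      rw [key2 x y h1 h2]

end shifts

section value

variable {K : Type} [Field K] [Fintype K] [CharP K 2]

lemma value {k : ℕ} {α s t s' t' : Fin k → K[X]} {p p' : K[X]}
    (hpi : Irreducible p) (hpi' : Irreducible p')
    (hpα : ∀ i, ¬ p ∣ α i) (hpα' : ∀ i, ¬ p' ∣ α i)
    (hs : ∀ i, p * α i = s i ^ 2 + X * t i ^ 2) (hs' : ∀ i, p' * α i = s' i ^ 2 + X * t' i ^ 2)
    (B A : K[X]) :
    ∏ i, (mobg (two p' (fun _ => 1) p (fun _ => 1) i)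
      ((p * p' * A + two p' s p s' i) ^ 2 + X * (p * p' * B + two p' t p t' i) ^ 2) : ℝ) =
    ∏ i, ((mob (p * (A ^ 2 + X * B ^ 2) + α i) : ℝ) *
      (mob (p' * (A ^ 2 + X * B ^ 2) + α i) : ℝ)) := by
  have hp0 : p ≠ 0 := hpi.ne_zero
  have hp0' : p' ≠ 0 := hpi'.ne_zero
  have key : ∀ (p p' : K[X]) (hpi : Irreducible p) (hp0' : p' ≠ 0) (α s t : K[X])
      (hpα : ¬ p ∣ α) (hs : p * α = s ^ 2 + X * t ^ 2),
      mobg p' ((p * p' * A + p' * s) ^ 2 + X * (p * p' * B + p' * t) ^ 2) =
        - mob (p * (A ^ 2 + X * B ^ 2) + α) := by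
    intro p p' hpi hp0' α s t hpα hs
    have h1 : (p * p' * A + p' * s) ^ 2 + X * (p * p' * B + p' * t) ^ 2 =
        p' ^ 2 * (p * (p * (A ^ 2 + X * B ^ 2) + α)) := by
      have h2 : (p * p' * A + p' * s) ^ 2 = (p * p' * A) ^ 2 + (p' * s) ^ 2 := CharTwo.add_sq _ _
      have h3 : (p * p' * B + p' * t) ^ 2 = (p * p' * B) ^ 2 + (p' * t) ^ 2 := CharTwo.add_sq _ _
      rw [h2, h3]
      calc (p * p' * A) ^ 2 + (p' * s) ^ 2 + X * ((p * p' * B) ^ 2 + (p' * t) ^ 2)
          = p' ^ 2 * (p * (p * (A ^ 2 + X * B ^ 2)) + (s ^ 2 + X * t ^ 2)) := by ring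
        _ = p' ^ 2 * (p * (p * (A ^ 2 + X * B ^ 2)) + p * α) := by rw [hs]
        _ = _ := by ring
    have h4 : ¬ p ∣ p * (A ^ 2 + X * B ^ 2) + α := by
      intro h5
      exact hpα ((dvd_add_right (dvd_mul_right _ _)).1 h5)
    rw [h1, mobg_sq_mul hp0', mob_prime_mul hpi (fun h0 => h4 (by rw [h0]; exact dvd_zero _)) h4]
  rw [Fin.prod_univ_add, ← Finset.prod_mul_distrib]
  refine Finset.prod_congr rfl fun i _ => ?_
  rw [two_left, two_left, two_left, two_right, two_right, two_right, mul_one, mul_one,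
    key p p' hpi hp0' (α i) (s i) (t i) (hpα i) (hs i)]
  have h1 : p * p' * A = p' * p * A := by ring
  have h2 : p * p' * B = p' * p * B := by ring
  rw [h1, h2, key p' p hpi' hp0 (α i) (s' i) (t' i) (hpα' i) (hs' i)]
  push_cast
  ring

end value

end Pool.Agent.H560.E2
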