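import Mathlib
import Pool.Agent.H560.E2.Win

/-!
# E2, task WIN: the fibre bound for two primes, end (helper560, after helper233)
-/

set_option autoImplicit false

namespace Pool.Agent.H560.E2

open Polynomial
open scoped Classical
open Pool.Agent.H985.Chow (mob MD)
open Pool.Agent.H985.KP (PA mobg)
open Pool.Agent.H985.Par (GoodV Sft Fb)
open Pool.Agent.H985.Chow.Asm
open Pool.Agent.H604.FC.Asm4
open Pool.Agent.H233.Par
open Pool.Agent.H694.Typ (Mn Irn PU mem_Irn mem_Mn)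

section geo

variable {K : Type} [Field K] [Fintype K] [CharP K 2]

lemma tb_odd (d : ℕ) : tb K (2 * d + 1) = X ^ d := by
  unfold tb
  rw [if_neg (by omega)]
  congr 1
  omega

lemma ta_odd (d : ℕ) : ta K (2 * d + 1) = 0 := by
  unfold ta
  rw [if_neg (by omega)]

/-- a monic polynomial minus its leading term -/
lemma sub_mem {B : K[X]} {d : ℕ} (hB : B.Monic) (hd : B.natDegree = d) :
    B - X ^ d ∈ degreeLT K d := by
  rw [mem_deg]
  intro i hi
  rw [coeff_sub, coeff_X_pow]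
  split_ifs with h
  · rw [h, ← hd, Monic.coeff_natDegree hB, sub_self]
  · rw [coeff_eq_zero_of_natDegree_lt (by omega), sub_zero]

lemma fib_monic {B A : K[X]} {d : ℕ} (hB : B.Monic) (hd : B.natDegree = d)
    (hA : A ∈ degreeLT K (d + 1)) :
    (A ^ 2 + X * B ^ 2).Monic ∧ (A ^ 2 + X * B ^ 2).natDegree = 2 * d + 1 := by
  have h := G_mem (2 * d + 1) A (B - X ^ d) (by
    have : (2 * d + 1 + 1) / 2 = d + 1 := by omega
    rw [this]
    exact hA) (by
    have : (2 * d + 1) / 2 = d := by omega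
    rw [this]
    exact sub_mem hB hd)
  rw [ta_odd, tb_odd, zero_add, add_sub_cancel] at h
  exact h

end geo

/-- **Task WIN.** -/
theorem winP (hwin : Pool.Agent.H524.FC.S_win5c) : S_winP := by
  intro K _ _ _ k δ hk hδ
  obtain ⟨q, hqdef⟩ : ∃ q : ℝ, q = Fintype.card K := ⟨_, rfl⟩
  have hq1 : (1 : ℝ) < q := by rw [hqdef]; exact_mod_cast Fintype.one_lt_card
  have hq0 : (0 : ℝ) < q := by linarith
  obtain ⟨kr, hkr⟩ : ∃ kr : ℝ, kr = ((k + k : ℕ) : ℝ) := ⟨_, rfl⟩
  have hkr2 : 2 ≤ kr := by rw [hkr]; exact_mod_cast (by omega : 2 ≤ k + k)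
  have hkr0 : 0 < kr := by linarith
  -- the constants of the window bound
  choose Mf hMf using W5_of hwin (k + k)
  obtain ⟨M0, hM0⟩ : ∃ M0 : ℝ, M0 = ∑ r ∈ Finset.range (k + k + 1), Mf r := ⟨_, rfl⟩
  have hM0r : ∀ r, r ≤ k + k → Mf r ≤ M0 := by
    intro r hr
    rw [hM0]
    exact Finset.single_le_sum (f := fun r => Mf r)
      (fun r _ => le_trans zero_le_one (hMf r).1) (Finset.mem_range.2 (by omega))
  have hM01 : 1 ≤ M0 := (hMf 0).1.trans (hM0r 0 (Nat.zero_le _))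
  obtain ⟨δ', hδ'⟩ : ∃ δ' : ℝ, δ' = δ / 2 := ⟨_, rfl⟩
  have hδ'0 : 0 < δ' := by rw [hδ']; linarith
  obtain ⟨κ, hκ⟩ : ∃ κ : ℝ, κ = min (1 / 22) (δ' / 44) := ⟨_, rfl⟩
  have hκ0 : 0 < κ := by rw [hκ]; exact lt_min (by norm_num) (by positivity)
  have hκ22 : κ ≤ 1 / 22 := by rw [hκ]; exact min_le_left _ _
  have hκδ : κ ≤ δ' / 44 := by rw [hκ]; exact min_le_right _ _
  obtain ⟨κ₁, hκ₁⟩ : ∃ κ₁ : ℝ, κ₁ = κ / (3 * kr) := ⟨_, rfl⟩
  have hκ₁0 : 0 < κ₁ := by rw [hκ₁]; positivity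
  have hkκ₁ : kr * κ₁ = κ / 3 := by
    rw [hκ₁]
    field_simp
  have hκ₁κ : κ₁ ≤ κ / 6 := by nlinarith
  have hκ₁δ : κ₁ ≤ δ' := by linarith
  obtain ⟨κf, hκf⟩ : ∃ κf : ℝ, κf = κ₁ / 4 := ⟨_, rfl⟩
  have hκf0 : 0 < κf := by rw [hκf]; linarith
  obtain ⟨κ₂, hκ₂⟩ : ∃ κ₂ : ℝ, κ₂ = δ' / (4 * (6 * kr + 3)) := ⟨_, rfl⟩
  have hκ₂0 : 0 < κ₂ := by rw [hκ₂]; positivity
  obtain ⟨A, hA1, hA⟩ := omega_bound K M0 hM01 (q ^ (κ₂ / 2 / kr))
    (Real.one_lt_rpow hq1 (by positivity))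
  obtain ⟨m1, hm1⟩ := tend (A ^ (k + k) * q) (q ^ (-(κ₂ / 4))) 1 (by positivity)
    (Real.rpow_lt_one_of_one_lt_of_neg hq1 (by linarith)) one_pos
  obtain ⟨c, hc⟩ : ∃ c : ℝ, c = κ₂ / (4 * 2 ^ (6 * (k + k) + 1)) := ⟨_, rfl⟩
  have hc0 : 0 < c := by rw [hc]; positivity
  obtain ⟨m2, hm2⟩ := exists_nat_gt (16 / κ)
  obtain ⟨m3, hm3⟩ := exists_nat_gt (1 / c)
  refine ⟨κf, c, hκf0, by rw [hκf]; linarith, hc0, 2 + 14 * (k + k) ^ 2, m1 + m2 + m3 + 1, ?_⟩
  intro d j y hd hj hjκ _ α s t s' t' p p' hα hαd hp hp' hne hpα hs hs'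
  obtain ⟨hpm, hpd, hpi⟩ := mem_Irn.1 hp
  obtain ⟨hpm', hpd', hpi'⟩ := mem_Irn.1 hp'
  have hp0 : p ≠ 0 := hpi.ne_zero
  have hp0' : p' ≠ 0 := hpi'.ne_zero
  have hd1 : 1 ≤ d := by omega
  have hdr : (1 : ℝ) ≤ d := by exact_mod_cast hd1
  obtain ⟨n, hn⟩ : ∃ n : ℕ, n = 2 * d + 1 + 4 * j := ⟨_, rfl⟩
  have hnr : (n : ℝ) = 2 * d + 1 + 4 * j := by rw [hn]; push_cast; ring
  have hj0 : (0 : ℝ) ≤ j := Nat.cast_nonneg _
  have hn0 : (0 : ℝ) < n := by rw [hnr]; linarith
  have hdm2 : 16 ≤ κ * d := by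
    have h1 : (m2 : ℝ) ≤ d := by exact_mod_cast (by omega : m2 ≤ d)
    have h2 : 16 / κ ≤ d := hm2.le.trans h1
    rw [div_le_iff₀ hκ0] at h2
    linarith
  have hdm3 : 1 ≤ c * d := by
    have h1 : (m3 : ℝ) ≤ d := by exact_mod_cast (by omega : m3 ≤ d)
    have h2 : 1 / c ≤ d := hm3.le.trans h1
    rw [div_le_iff₀ hc0] at h2
    linarith
  have hκn : 16 ≤ κ * n := by
    have : κ * d ≤ κ * n := mul_le_mul_of_nonneg_left (by rw [hnr]; linarith) hκ0.le
    linarith
  -- the joint family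
  obtain ⟨st, hst⟩ : ∃ st, st = two p' s p s' := ⟨_, rfl⟩
  obtain ⟨tt, htt⟩ : ∃ tt, tt = two p' t p t' := ⟨_, rfl⟩
  obtain ⟨r, τ, cl, hτ, hcl, hcls, hrk, hr0⟩ := classes (by omega : 1 ≤ k + k) tt
  have hinj := two_inj hpm hpi hpm' hpi' hne hα (fun i => (hpα i).1) hs hs'
  have hss : ∀ i i', i ≠ i' → cl i = cl i' → st i ≠ st i' := by
    intro i i' hii hcc h
    apply hii
    apply hinj
    · rw [← hst]
      exact h
    · rw [← htt, ← hcl i, ← hcl i', hcc]
  have hdeg1 : ∀ (p p' α s t : K[X]), p.natDegree = j → p'.natDegree = j →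
      α.natDegree < 2 * d + 1 + j → p * α = s ^ 2 + X * t ^ 2 →
      ((p' * s) ^ 2 + X * (p' * t) ^ 2).natDegree < n := by
    intro p p' α s t h1 h2 h3 h4
    have h5 : (p' * s) ^ 2 + X * (p' * t) ^ 2 = p' ^ 2 * (p * α) := by rw [h4]; ring
    rw [h5, hn]
    have h6 : (p' ^ 2 * (p * α)).natDegree ≤ (p' ^ 2).natDegree + (p * α).natDegree :=
      natDegree_mul_le
    have h7 : (p * α).natDegree ≤ p.natDegree + α.natDegree := natDegree_mul_le
    have h8 : (p' ^ 2).natDegree ≤ 2 * p'.natDegree := natDegree_pow_le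
    omega
  have hdst : ∀ i, (st i ^ 2 + X * tt i ^ 2).natDegree < n := by
    intro i
    rw [hst, htt]
    refine all_two (p := fun i => ((two p' s p s' i) ^ 2 + X * (two p' t p t' i) ^ 2).natDegree < n)
      (fun x => ?_) (fun x => ?_) i
    · rw [two_left, two_left]
      exact hdeg1 p p' (α x) (s x) (t x) hpd hpd' (hαd x) (hs x)
    · rw [two_right, two_right]
      exact hdeg1 p' p (α x) (s' x) (t' x) hpd' hpd (hαd x) (hs' x)
  have hdst' : ∀ i, (st i ^ 2 + X * τ (cl i) ^ 2).natDegree < n := by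
    intro i
    rw [hcl]
    exact hdst i
  have hsm : ∀ i, st i ∈ degreeLT K ((n + 1) / 2) := fun i => (mem_of_G (hdst i)).1
  have hτm : ∀ l, τ l ∈ degreeLT K (n / 2) := by
    intro l
    obtain ⟨i, rfl⟩ := hcls l
    exact (mem_of_G (hdst' i)).2
  have hSS0 : SS st (fun _ => (1 : K[X])) τ 1 ≠ 0 :=
    SS_ne st (fun _ => 1) τ 1 (fun _ => monic_one) one_ne_zero
  have hSSd : (SS st (fun _ => (1 : K[X])) τ 1).natDegree ≤ (r * r + (k + k) * (k + k)) * n := by
    apply SS_natDegree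
    · intro i
      have := natDegree_of_mem (hsm i)
      omega
    · intro l
      have := natDegree_of_mem (hτm l)
      omega
  have hjd : j ≤ d := by
    have h1 : (j : ℝ) ≤ d := by
      have : κf ≤ 1 := by rw [hκf]; linarith
      nlinarith
    exact_mod_cast h1
  refine ⟨p * p' * SS st (fun _ => (1 : K[X])) τ 1, mul_ne_zero (mul_ne_zero hp0 hp0') hSS0, ?_, ?_⟩
  · rw [natDegree_mul (mul_ne_zero hp0 hp0') hSS0, natDegree_mul hp0 hp0', hpd, hpd']
    have h1 : n ≤ 7 * d := by omega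
    have h2 : r * r ≤ (k + k) * (k + k) := Nat.mul_le_mul hrk hrk
    calc j + j + (SS st (fun _ => (1 : K[X])) τ 1).natDegree
        ≤ d + d + (r * r + (k + k) * (k + k)) * n := by omega
      _ ≤ d + d + ((k + k) * (k + k) + (k + k) * (k + k)) * (7 * d) := by
          apply Nat.add_le_add_left
          exact Nat.mul_le_mul (by omega) h1
      _ = (2 + 14 * (k + k) ^ 2) * d := by ring
  intro B hB hBd hgood hgen D w hD0 hDd hDP hw hwD
  -- the fibre
  obtain ⟨b, hb⟩ : ∃ b, b = p * p' * B := ⟨_, rfl⟩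
  have hB0 : B ≠ 0 := hB.ne_zero
  have hbm : b.Monic := by rw [hb]; exact (hpm.mul hpm').mul hB
  have hbd : b.natDegree = d + 2 * j := by
    rw [hb, (hpm.mul hpm').natDegree_mul hB, hpm.natDegree_mul hpm', hpd, hpd', hBd]
    omega
  have hbFb : b ∈ Fb K n := by
    refine ⟨0, ?_, ?_⟩
    · rw [zero_pow two_ne_zero, zero_add]
      exact monic_X.mul (hbm.pow 2)
    · rw [zero_pow two_ne_zero, zero_add, monic_X.natDegree_mul (hbm.pow 2), natDegree_X,
        hbm.natDegree_pow, hbd, hn]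
      omega
  obtain ⟨R, hR⟩ : ∃ R : Set K[X], R = {P : K[X] | P.natDegree ≤ y} ∪ {p, p'} := ⟨_, rfl⟩
  have hpR : p ∈ R := by rw [hR]; right; simp
  have hpR' : p' ∈ R := by rw [hR]; right; simp
  have hyR : ∀ P : K[X], P.natDegree ≤ y → P ∈ R := by
    intro P hP
    rw [hR]
    left
    exact hP
  have hnum : (j : ℝ) + κf * (d + j : ℕ) ≤ κ₁ * (d + 2 * j : ℕ) := by
    push_cast
    have h1 : κf * (d : ℝ) ≤ κ₁ / 4 * d := by rw [hκf]
    have h2 : κf * (j : ℝ) ≤ κ₁ / 4 * j := by rw [hκf]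
    have h3 : 0 ≤ κ₁ * d := by positivity
    have h4 : 0 ≤ κ₁ * j := by positivity
    nlinarith
  have hgdP : ∀ l, gdP (GoodV (R ∪ {P | P ∣ SS st (fun _ => 1) τ 1}) δ' κ₁) (d + 2 * j)
      (b + τ l) := by
    intro l
    obtain ⟨i, rfl⟩ := hcls l
    -- common part
    have main : ∀ (i : Fin (k + k)) (p p' β : K[X]), p.Monic → Irreducible p → p.natDegree = j →
        p'.Monic → Irreducible p' → p'.natDegree = j → p ∈ R → p' ∈ R →
        R = {P : K[X] | P.natDegree ≤ y} ∪ {p, p'} → ¬ p ∣ β →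
        (y < p'.natDegree → ¬ p' ∣ β) → β.Monic → β.natDegree = d + j →
        (∀ P : K[X], P.Monic → Irreducible P → y < P.natDegree →
          P ∣ SS st (fun _ => (1 : K[X])) τ 1 → ¬ P ∣ β) →
        GoodV {P : K[X] | P.natDegree ≤ y} δ κf (d + j) β → b + τ (cl i) = p' * β →
        gdP (GoodV (R ∪ {P | P ∣ SS st (fun _ => 1) τ 1}) δ' κ₁) (d + 2 * j) (b + τ (cl i)) := by
      intro i p p' β hpm hpi hpd hpm' hpi' hpd' hpR hpR' hR' hpβ hpβ' hβm hβd hSSβ hg he
      have hnd : (p' * β).natDegree = d + 2 * j := by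
        rw [hpm'.natDegree_mul hβm, hpd', hβd]
        omega
      refine ⟨1, p' * β, one_ne_zero, ?_, hpm'.mul hβm, by rw [hnd], ?_⟩
      · rw [he, map_one, one_mul]
      · rw [hnd, hδ']
        refine good_up hpm' hpi' hpd' hδ.le hnum ?_ (Or.inl hpR') hg
        intro P hP hPm hPi
        by_cases hPy : P.natDegree ≤ y
        · exact Or.inl hPy
        right
        rcases hP with hP | hP
        · rw [hR'] at hP
          rcases hP with hP | hP
          · exact absurd hP hPy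
          · rcases hP with hP | hP
            · rw [hP]
              exact hpβ
            · rw [Set.mem_singleton_iff] at hP
              rw [hP]
              apply hpβ'
              rw [← hP]
              omega
        · exact hSSβ P hPm hPi (by omega) hP
    have hβ : ∀ (p t : K[X]), p.Monic → p.natDegree = j → (∃ α s : K[X],
        α.natDegree < 2 * d + 1 + j ∧ p * α = s ^ 2 + X * t ^ 2) →
        (p * B + t).Monic ∧ (p * B + t).natDegree = d + j := by
      intro p t hpm hpd ⟨α, s, hα1, hα2⟩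
      have h1 : (s ^ 2 + X * t ^ 2).natDegree < 2 * (d + j) + 1 := by
        rw [← hα2]
        have h7 : (p * α).natDegree ≤ p.natDegree + α.natDegree := natDegree_mul_le
        omega
      have h2 : t ∈ degreeLT K (d + j) := by
        have h3 := (mem_of_G h1).2
        have h4 : (2 * (d + j) + 1) / 2 = d + j := by omega
        rwa [h4] at h3
      have h3 : (p * B).natDegree = d + j := by
        rw [hpm.natDegree_mul hB, hpd, hBd]
        omega
      have h4 : t.degree < (p * B).degree := by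
        rw [degree_eq_natDegree (hpm.mul hB).ne_zero, h3]
        exact mem_degreeLT.1 h2
      refine ⟨(hpm.mul hB).add_of_left h4, ?_⟩
      rw [natDegree_add_eq_left_of_degree_lt h4, h3]
    have hSSF : ∀ P : K[X], P ∣ SS st (fun _ => (1 : K[X])) τ 1 →
        P ∣ p * p' * SS st (fun _ => (1 : K[X])) τ 1 := fun P hP => hP.mul_left _
    refine all_two (p := fun i => gdP (GoodV (R ∪ {P | P ∣ SS st (fun _ => 1) τ 1}) δ' κ₁)
      (d + 2 * j) (b + τ (cl i))) (fun x => ?_) (fun x => ?_) i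
    · have he : b + τ (cl (Fin.castAdd k x)) = p' * (p * B + t x) := by
        rw [hcl, htt, two_left, hb]
        ring
      obtain ⟨hβm, hβd⟩ := hβ p (t x) hpm hpd ⟨α x, s x, hαd x, hs x⟩
      refine main _ p p' (p * B + t x) hpm hpi hpd hpm' hpi' hpd' hpR hpR' hR ?_ ?_ hβm hβd ?_
        (hgood x).1 he
      · intro h
        exact not_dvd_snd hpi (hs x) (hpα x).1 ((dvd_add_right (dvd_mul_right _ _)).1 h)
      · intro h1
        exact (hgen p' hpm' hpi' h1 ((dvd_mul_left _ _).mul_right _) x).1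
      · intro P hPm hPi hPy hP
        exact (hgen P hPm hPi hPy (hSSF P hP) x).1
    · have he : b + τ (cl (Fin.natAdd k x)) = p * (p' * B + t' x) := by
        rw [hcl, htt, two_right, hb]
        ring
      obtain ⟨hβm, hβd⟩ := hβ p' (t' x) hpm' hpd' ⟨α x, s' x, hαd x, hs' x⟩
      refine main _ p' p (p' * B + t' x) hpm' hpi' hpd' hpm hpi hpd hpR' hpR
        (by rw [hR, Set.pair_comm]) ?_ ?_ hβm hβd ?_ (hgood x).2 he
      · intro h
        exact not_dvd_snd hpi' (hs' x) (hpα x).2 ((dvd_add_right (dvd_mul_right _ _)).1 h)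
      · intro h1
        exact (hgen p hpm hpi h1 ((dvd_mul_right _ _).mul_right _) x).2
      · intro P hPm hPi hPy hP
        exact (hgen P hPm hPi hPy (hSSF P hP) x).2
  have hn1 : 1 ≤ n := by omega
  obtain ⟨E, hEm, hEd, hER, hmain⟩ := local_bound (hMf r) st τ cl hcls hr0 hτ hss δ' κ κ₁ hδ'0 hκ0
    hκ22 hκδ hκ₁0.le hκ₁δ n (d + 2 * j) hn1 (by
      push_cast
      rw [hnr] at hκn ⊢
      linarith) hdst' R b hbFb hgdP
  have hE0 : E ≠ 0 := hEm.ne_zero
  have hEd' : (E.natDegree : ℝ) ≤ 5 / 6 * (κ * n) := by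
    have h4 : (r : ℝ) ≤ kr := by rw [hkr]; exact_mod_cast hrk
    calc (E.natDegree : ℝ) ≤ r * (5 * (κ₁ * (n / 2))) := hEd
      _ ≤ kr * (5 * (κ₁ * (n / 2))) := mul_le_mul_of_nonneg_right h4 (by positivity)
      _ = (kr * κ₁) * (5 / 2 * n) := by ring
      _ = (κ / 3) * (5 / 2 * n) := by rw [hkκ₁]
      _ = 5 / 6 * (κ * n) := by ring
  obtain ⟨ED, hED⟩ : ∃ ED, ED = E * D := ⟨_, rfl⟩
  have hED0 : ED ≠ 0 := by rw [hED]; exact mul_ne_zero hE0 hD0
  have hEDd : ED.natDegree = E.natDegree + D.natDegree := by rw [hED, natDegree_mul hE0 hD0]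
  obtain ⟨M, hM⟩ : ∃ M, M = p * p' * ED := ⟨_, rfl⟩
  have hM0' : M ≠ 0 := by rw [hM]; exact mul_ne_zero (mul_ne_zero hp0 hp0') hED0
  have hMd : M.natDegree = 2 * j + ED.natDegree := by
    rw [hM, natDegree_mul (mul_ne_zero hp0 hp0') hED0, natDegree_mul hp0 hp0', hpd, hpd']
    omega
  have hκfd : κf * d ≤ κ * n / 48 := by
    have h1 : κf * d ≤ κ / 24 * d := mul_le_mul_of_nonneg_right (by rw [hκf]; linarith) (by linarith)
    have h2 : κ / 24 * d ≤ κ / 24 * (n / 2) :=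
      mul_le_mul_of_nonneg_left (by rw [hnr]; linarith) (by linarith)
    linarith
  have hMr : (M.natDegree : ℝ) ≤ κ * n := by
    rw [hMd, hEDd]
    push_cast
    linarith
  obtain ⟨N1, hN1⟩ : ∃ N1, N1 = ⌊(1 - κ) * n / 2⌋₊ := ⟨_, rfl⟩
  have hx0 : 0 ≤ (1 - κ) * n / 2 := by
    have : 0 ≤ (1 - κ) * n := mul_nonneg (by linarith) hn0.le
    linarith
  have hN1a : (N1 : ℝ) ≤ (1 - κ) * n / 2 := by rw [hN1]; exact Nat.floor_le hx0
  have hN1b : (1 - κ) * n / 2 < N1 + 1 := by rw [hN1]; exact Nat.lt_floor_add_one _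
  have hκn22 : κ * n ≤ 1 / 22 * n := mul_le_mul_of_nonneg_right hκ22 hn0.le
  have hMN : M.natDegree ≤ N1 := by
    have h1 : (M.natDegree : ℝ) ≤ N1 := by linarith
    exact_mod_cast h1
  obtain ⟨L, hL⟩ : ∃ L, L = N1 - M.natDegree := ⟨_, rfl⟩
  have hML : M.natDegree + L = N1 := by omega
  have hMLr : (M.natDegree : ℝ) + L = N1 := by exact_mod_cast hML
  have hN1n : N1 ≤ d + 2 * j := by
    have h1 : 2 * (N1 : ℝ) ≤ n := by linarith
    have h2 : 2 * N1 ≤ n := by exact_mod_cast h1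
    omega
  have hEDu : ∀ u ∈ degreeLT K L, ED * u ∈ degreeLT K (d + 1) := by
    intro u hu
    apply mem_of_natDegree_lt
    by_cases hu0 : u = 0
    · left
      rw [hu0, mul_zero]
    · right
      have h1 := natDegree_lt_of_mem hu hu0
      rw [natDegree_mul hED0 hu0]
      omega
  have havg := avg (d + 1) L ED hEDu (fun A => w A *
      ∏ i, ((mob (p * (A ^ 2 + X * B ^ 2) + α i) : ℝ) *
        (mob (p' * (A ^ 2 + X * B ^ 2) + α i) : ℝ))) (q ^ (-(c * n))) ?_
  · refine havg.trans ?_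
    rw [← hqdef, ← Real.rpow_natCast, ← Real.rpow_add hq0]
    apply Real.rpow_le_rpow_of_exponent_le hq1.le
    push_cast
    have h1 : c * (2 * d) ≤ c * n := mul_le_mul_of_nonneg_left (by rw [hnr]; linarith) hc0.le
    linarith
  intro v hv
  obtain ⟨a, ha⟩ : ∃ a, a = p * p' * v := ⟨_, rfl⟩
  obtain ⟨g, hg⟩ : ∃ g : Fin (k + k) → K[X], g = two p' (fun _ => 1) p (fun _ => 1) := ⟨_, rfl⟩
  obtain ⟨hvm, hvd⟩ := fib_monic hB hBd hv
  have hab : a ^ 2 + X * b ^ 2 = (p * p') ^ 2 * (v ^ 2 + X * B ^ 2) := by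
    rw [ha, hb]
    ring
  obtain ⟨H, hH, hbound⟩ := hmain M g L a 1 hM0' (by
      rw [hM, hED]
      exact (dvd_mul_right _ _).mul_left _) (by linarith) (by
      intro P hPm hPi hPM
      by_cases hex : ∃ i, P ∣ b + τ (cl i)
      · left
        rw [hM, hED] at hPM
        rcases hPi.prime.dvd_or_dvd hPM with h1 | h1
        · rcases hPi.prime.dvd_or_dvd h1 with h2 | h2
          · have h3 : P = p := eq_of_monic_of_associated hPm hpm (hPi.associated_of_dvd hpi h2)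
            exact hER P (by rw [h3]; exact hpR) hPm hPi hex
          · have h3 : P = p' := eq_of_monic_of_associated hPm hpm' (hPi.associated_of_dvd hpi' h2)
            exact hER P (by rw [h3]; exact hpR') hPm hPi hex
        · rcases hPi.prime.dvd_or_dvd h1 with h2 | h2
          · exact h2
          · exact hER P (hyR P (hDP P hPm hPi h2)) hPm hPi hex
      · right
        intro i hi
        exact hex ⟨i, hi⟩) (by
      intro i
      rw [hg]
      refine all_two (p := fun i => (two p' (fun _ => 1) p (fun _ => 1) i : K[X]).Monic ∧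
        ∀ P : K[X], P.Monic → Irreducible P → P ∣ two p' (fun _ => 1) p (fun _ => 1) i → P ∈ R)
        (fun x => ?_) (fun x => ?_) i
      · rw [two_left, mul_one]
        refine ⟨hpm', fun P hPm hPi hP => ?_⟩
        have h3 : P = p' := eq_of_monic_of_associated hPm hpm' (hPi.associated_of_dvd hpi' hP)
        rw [h3]
        exact hpR'
      · rw [two_right, mul_one]
        refine ⟨hpm, fun P hPm hPi hP => ?_⟩
        have h3 : P = p := eq_of_monic_of_associated hPm hpm (hPi.associated_of_dvd hpi hP)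
        rw [h3]
        exact hpR) (by
      rw [hab]
      exact ((hpm.mul hpm').pow 2).mul hvm) (by
      rw [hab, ((hpm.mul hpm').pow 2).natDegree_mul hvm, (hpm.mul hpm').natDegree_pow,
        hpm.natDegree_mul hpm', hpd, hpd', hvd, hn]
      omega) (by
      rw [hMLr]
      linarith) (by
      rw [hMLr]
      linarith)
  simp only [hcl] at hbound
  rw [← hqdef] at hbound
  have hfin := fin_num hq1 hrk hκ₂0 hA1 (abs_nonneg _) ?_ ?_ (hm1 n (by omega)) hc hbound
  · -- conclusion for the window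
    rw [window_finsum] at hfin
    have h1 : ∑ u : degreeLT K L, (fun A : K[X] => w A *
        ∏ i, ((mob (p * (A ^ 2 + X * B ^ 2) + α i) : ℝ) *
        (mob (p' * (A ^ 2 + X * B ^ 2) + α i) : ℝ))) (v + ED * (u : K[X])) =
        w v * ∑ u : degreeLT K L, (1 : AddChar K[X] ℝ) (u : K[X]) * ∏ i, (mobg (g i)
          ((a + st i + M * (u : K[X])) ^ 2 + X * (b + tt i) ^ 2) : ℝ) := by
      rw [Finset.mul_sum]
      refine Finset.sum_congr rfl fun u _ => ?_
      have h2 : w (v + ED * (u : K[X])) = w v := by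
        have h3 : v + ED * (u : K[X]) = v + D * (E * (u : K[X])) := by rw [hED]; ring
        rw [h3, hwD]
      have h4 := value hpi hpi' (fun i => (hpα i).1) (fun i => (hpα i).2) hs hs' B
        (v + ED * (u : K[X]))
      simp only [h2]
      rw [← h4, AddChar.one_apply, one_mul, hg, hst, htt]
      congr 1
      refine Finset.prod_congr rfl fun i _ => ?_
      have h5 : p * p' * (v + ED * (u : K[X])) + two p' s p s' i =
          a + two p' s p s' i + M * (u : K[X]) := by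
        rw [ha, hM]
        ring
      rw [h5, hb]
    rw [h1, abs_mul]
    refine (mul_le_mul (hw v) hfin (abs_nonneg _) zero_le_one).trans (le_of_eq ?_)
    rw [one_mul, sub_eq_add_neg, Real.rpow_add hq0, Real.rpow_natCast, ← hqdef]
  · -- the bound for `T`
    have h1 : ⌊δ' * n / 4⌋₊ + 1 ≤ (6 * r + 3) * (⌊δ' * n / 4⌋₊ / (6 * r + 3) + 1) :=
      Nat.lt_mul_div_succ _ (by omega)
    have h2 : δ' * n / 4 < (⌊δ' * n / 4⌋₊ : ℝ) + 1 := Nat.lt_floor_add_one _
    have h3 : ((⌊δ' * n / 4⌋₊ : ℕ) : ℝ) + 1 ≤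
        (6 * r + 3) * (((⌊δ' * n / 4⌋₊ / (6 * r + 3) : ℕ) : ℝ) + 1) := by exact_mod_cast h1
    have h4 : (r : ℝ) ≤ kr := by rw [hkr]; exact_mod_cast hrk
    have h5 : (0 : ℝ) ≤ ((⌊δ' * n / 4⌋₊ / (6 * r + 3) : ℕ) : ℝ) + 1 := by positivity
    have h6 : (6 * (r : ℝ) + 3) * (((⌊δ' * n / 4⌋₊ / (6 * r + 3) : ℕ) : ℝ) + 1) ≤
        (6 * kr + 3) * (((⌊δ' * n / 4⌋₊ / (6 * r + 3) : ℕ) : ℝ) + 1) :=
      mul_le_mul_of_nonneg_right (by linarith) h5
    rw [hκ₂, div_mul_eq_mul_div, div_le_iff₀ (by positivity)]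
    linarith
  · -- the number of primes
    have hMr' : Mf r ≤ M0 := hM0r r hrk
    have hMr0 : 0 ≤ Mf r := le_trans zero_le_one (hMf r).1
    have hη1 : (1 : ℝ) ≤ q ^ (κ₂ / 2 / kr) := Real.one_le_rpow hq1.le (by positivity)
    have hAη : 1 ≤ A * (q ^ (κ₂ / 2 / kr)) ^ n :=
      one_le_mul_of_one_le_of_one_le hA1 (one_le_pow₀ hη1)
    calc Mf r ^ (∑ l, (PA (H l)).ncard) ≤ M0 ^ (∑ l, (PA (H l)).ncard) :=
          pow_le_pow_left₀ hMr0 hMr' _
      _ = ∏ l, M0 ^ (PA (H l)).ncard := by rw [Finset.prod_pow_eq_pow_sum]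
      _ ≤ ∏ _l : Fin r, (A * (q ^ (κ₂ / 2 / kr)) ^ n) := by
          apply Finset.prod_le_prod
          · intro l _
            have : 0 ≤ M0 := by linarith
            positivity
          · intro l _
            exact hA (H l) (hH l).1 n (hH l).2
      _ = (A * (q ^ (κ₂ / 2 / kr)) ^ n) ^ r := by
          rw [Finset.prod_const, Finset.card_univ, Fintype.card_fin]
      _ ≤ (A * (q ^ (κ₂ / 2 / kr)) ^ n) ^ (k + k) := pow_le_pow_right₀ hAη hrk
      _ = A ^ (k + k) * (q ^ (κ₂ / 2)) ^ n := by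
          rw [mul_pow, ← pow_mul, mul_comm n (k + k), pow_mul,
            ← Real.rpow_natCast (q ^ (κ₂ / 2 / kr)) (k + k), ← Real.rpow_mul hq0.le, ← hkr,
            div_mul_cancel₀ _ hkr0.ne']

end Pool.Agent.H560.E2
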