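import Pool.Agent.H985.FC.Full
import Pool.Agent.H183.Par.BRUN
import Pool.Agent.H675.Par.SW
import Pool.Agent.H560.E2.WinC
import Pool.Agent.H560.E2.Top
import Pool.Agent.H571.E2.Typ
import Pool.Agent.H139.E2.Bil
import Pool.Agent.H353.E2.UpP
import Pool.Agent.H161.E2.Main
import Pool.Agent.H277.E2.Sv
import Pool.Agent.H277.E2.Vlow
import Pool.Agent.H289.E2.Nsq
import Pool.Agent.H721.E2.Fin

/-!
# E2: all the parts together (helper560)
-/

namespace Pool.Agent.H560.E2

theorem s_core : S_core :=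
  Pool.Agent.H721.E2Fin.core Pool.Agent.H571.E2.typP
    (Pool.Agent.H139.E2.bilP (winP (Pool.Agent.H524.FC.win5c Pool.Agent.H985.FC.winFs
      Pool.Agent.H985.FC.win4s)))
    (Pool.Agent.H353.E2.upP (Pool.Agent.H675.Par.sw Pool.Agent.H183.Par.brun))
    Pool.Agent.H161.E2.mainP (Pool.Agent.H277.E2.svP Pool.Agent.H183.Par.brun)
    Pool.Agent.H277.E2.v1P

theorem s_lev : S_lev := lev s_core Pool.Agent.H289.E2.nsqP

theorem s_top : S_top := top s_lev

end Pool.Agent.H560.E2
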